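import Pool.Agent.H9.K2.H6R
import Pool.Agent.H9.K2.H6C
import Pool.Agent.H8.KS6.BoxT
import Pool.Agent.H80.S6C.Cls

/-!
# (H6) and (H7) of the rising step in the units of a context

The frames of a visible plank at two samples of a line in a context, in the units of the context:
the slope of the plank and the direction of the fans are not constant.
-/

set_option autoImplicit false

namespace Pool.KS6

open Finset Real
open Pool.Agent.H49.Ent Pool.Agent.H32.Dense Pool.STK Pool.KA Pool.KSAT Pool.K3 Pool.K2S Pool.PB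

section Dir

variable {J : ℕ}

/-- **(H7)** If the directions of the fans are not conserved to precision `ρ` on the windows of
exponent `v` on large parts of the event, then the directions of visible planks at two samples of a
line in such a window differ by more than `ρ / 5`. -/
theorem h7r (F : Fam 3 J) {Qt : ℕ} {i0 iu iN : Fin 3}
    (hi : ∀ j : Fin 3, j = i0 ∨ j = iu ∨ j = iN)
    {v W lam P : ℕ} {C κ r ρ : ℝ} (hC : 0 ≤ C) {A : F.Ω → Prop}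
    (hl : IsLaw (Pool.Agent.H49.Ent.cond F.p A True))
    {y : F.Ω → Pln} (hI : ∀ ω, A ω → Inc i0 iu iN W lam P C (y ω) (F.t ω) (F.x ω) (F.d ω))
    {φ : (Fin 3 → ℤ) × (ℕ × F.ζ) → Pln} (hφ : ∀ ω, A ω → y ω = φ (ptq F Qt ω))
    (hr : 5 * C / 2 ^ lam + C * 2 ^ W / 2 ^ P ≤ r)
    (hB : ∀ B : F.Ω → Prop, Sub B A → Real.exp (-κ) * Pe F.p A ≤ Pe F.p B →
      ¬ RotU i0 r (5 * ρ) (ptq F Qt) (slam F v) F.d B) :
    Pe (cpy (Pool.Agent.H49.Ent.cond F.p A True) (slam F v))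
      (fun x => |(y x.1).e - (y x.2).e| ≤ ρ ∧
        |Ae (y x.1).c (y x.1).s (y x.2).c (y x.2).s (y x.2).e| ≤ ρ) ≤ Real.exp (-κ) := by
  classical
  have hp := F.isLaw
  have hA := pos_of_cond hp hl
  by_contra hcon
  push Not at hcon
  obtain ⟨ζ, hζ⟩ := exists_fn_of_cpy hl y (slam F v)
    (fun a b : Pln => |a.e - b.e| ≤ ρ ∧ |Ae a.c a.s b.c b.s b.e| ≤ ρ) hcon.le
  rw [Pe_cond, le_div_iff₀ hA] at hζ
  have hp2 : (0 : ℝ) ≤ C / 2 ^ lam := by positivity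
  have hp3 : (0 : ℝ) ≤ C * 2 ^ W / 2 ^ P := by positivity
  have e5 : 5 * C / 2 ^ lam = 5 * (C / (2 : ℝ) ^ lam) := by ring
  rw [e5] at hr
  refine hB _ (fun ω hω => hω.1) hζ ⟨
    fun u j => if j = i0 then 1 else if j = iu then (φ u).e else -((φ u).c + (φ u).s * (φ u).e),
    fun u j => if j = i0 then 0 else if j = iu then fu i0 iu (φ u).e (φ u).db else
      fn i0 iu iN (φ u).c (φ u).s (φ u).db - (φ u).s * fu i0 iu (φ u).e (φ u).db,
    fun l j => if j = i0 then 1 else if j = iu then (ζ l).e else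
      -((ζ l).c + (ζ l).s * (ζ l).e), ?_, ?_⟩
  · rintro ω ⟨hω, -⟩ j
    beta_reduce
    have h := hI ω hω
    have h4 := h.s_le
    have h5 := h.vu
    have h6 := h.vn
    rw [hφ ω hω] at h4 h5 h6
    generalize φ (ptq F Qt ω) = z at h4 h5 h6 ⊢
    by_cases j0 : j = i0
    · subst j0
      simp only [if_true]
      rw [one_mul, sub_self, sub_zero, abs_zero]
      linarith
    by_cases j1 : j = iu
    · subst j1
      rw [if_neg j0, if_neg j0, if_pos rfl, if_pos rfl]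
      refine le_trans (le_of_eq ?_) (h5.trans (by linarith))
      unfold fu
      congr 1
    · have j2 : j = iN := by
        rcases hi j with h | h | h
        · exact (j0 h).elim
        · exact (j1 h).elim
        · exact h
      subst j2
      rw [if_neg j0, if_neg j0, if_neg j1, if_neg j1]
      have e1 : F.d ω j - -(z.c + z.s * z.e) * F.d ω i0 -
          (fn i0 iu j z.c z.s z.db - z.s * fu i0 iu z.e z.db) =
          (fn i0 iu j z.c z.s (F.d ω) - fn i0 iu j z.c z.s z.db) -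
            z.s * (fu i0 iu z.e (F.d ω) - fu i0 iu z.e z.db) := by
        unfold fn fu
        ring
      rw [e1]
      refine (abs_sub _ _).trans ?_
      rw [abs_mul]
      have h7 : |z.s| * |fu i0 iu z.e (F.d ω) - fu i0 iu z.e z.db| ≤ 4 * (C / 2 ^ lam) :=
        mul_le_mul h4 h5 (abs_nonneg _) (by norm_num)
      linarith
  · rintro ω ⟨hω, hω2⟩ j
    beta_reduce
    have h4 := (hI ω hω).s_le
    rw [hφ ω hω] at h4 hω2
    generalize φ (ptq F Qt ω) = z at h4 hω2 ⊢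
    generalize ζ (slam F v ω) = z' at hω2 ⊢
    obtain ⟨k1, k2⟩ := hω2
    have hρ : 0 ≤ ρ := (abs_nonneg _).trans k1
    by_cases j0 : j = i0
    · subst j0
      simp only [if_true]
      rw [sub_self, abs_zero]
      linarith
    by_cases j1 : j = iu
    · subst j1
      rw [if_neg j0, if_neg j0, if_pos rfl, if_pos rfl]
      linarith
    · rw [if_neg j0, if_neg j0, if_neg j1, if_neg j1]
      have e1 : -(z.c + z.s * z.e) - -(z'.c + z'.s * z'.e) =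
          -(Ae z.c z.s z'.c z'.s z'.e + z.s * (z.e - z'.e)) := by
        unfold Ae
        ring
      rw [e1, abs_neg]
      refine (abs_add_le _ _).trans ?_
      rw [abs_mul]
      have h7 : |z.s| * |z.e - z'.e| ≤ 4 * ρ := mul_le_mul h4 k1 (abs_nonneg _) (by norm_num)
      linarith

end Dir

/-! ### The units of a context -/

/-- The frame `y` is near the frame `z` of the context: `V`, `H`, `R` digits. -/
structure Nfr (V H R : ℕ) (D : ℝ) (y z : Pln) : Prop where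
  e : |y.e - z.e| ≤ D / 2 ^ V
  s : |y.s - z.s| ≤ D / 2 ^ H
  c : |Ae y.c y.s z.c z.s z.e| ≤ D / 2 ^ R

/-- The scaled coefficient of `x_e` of the normal form. -/
noncomputable def Sc0 (R : ℕ) (y z : Pln) : ℝ := 2 ^ R * Ae y.c y.s z.c z.s z.e

/-- The scaled coefficient of `x_u` of the normal form. -/
noncomputable def Sc1 (H : ℕ) (y z : Pln) : ℝ := 2 ^ H * (y.s - z.s)

/-- The scaled slope of the fans. -/
noncomputable def Sce (V : ℕ) (y z : Pln) : ℝ := 2 ^ V * (y.e - z.e)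

theorem scaled_le {R : ℕ} {a b δ : ℝ} (h : |2 ^ R * a - 2 ^ R * b| ≤ δ) :
    |a - b| ≤ δ / 2 ^ R := by
  have hR : (0 : ℝ) < 2 ^ R := by positivity
  rw [← mul_sub, abs_mul, abs_of_pos hR] at h
  rw [le_div_iff₀ hR, mul_comm]
  exact h

/-- Frames which agree in the units of the context agree. -/
theorem agr_of_sc {V H R k k₀ : ℕ} {D : ℝ} {y y' z : Pln} (hR : R = H + V)
    (hk : k₀ ≤ V) (hD0 : 1 ≤ D) (hD : 2 * D ≤ 2 ^ k₀) (h : Nfr V H R D y z) (h' : Nfr V H R D y' z)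
    (h0 : |Sc0 R y z - Sc0 R y' z| ≤ 1 / 2 ^ k) (h1 : |Sc1 H y z - Sc1 H y' z| ≤ 1 / 2 ^ k) :
    Agr (V - k₀) (H + k) (R + k - k₀) y y' := by
  have a0 := scaled_le h0
  have a1 := scaled_le h1
  have pV : (0 : ℝ) < 2 ^ V := by positivity
  have pH : (0 : ℝ) < 2 ^ H := by positivity
  have pk : (0 : ℝ) < 2 ^ k := by positivity
  have pk0 : (0 : ℝ) < 2 ^ k₀ := by positivity
  have b1 : |y.s - y'.s| ≤ 1 / 2 ^ (H + k) := by
    have e1 : y.s - y'.s = (y.s - z.s) - (y'.s - z.s) := by ring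
    rw [e1]
    refine a1.trans (le_of_eq ?_)
    rw [pow_add, div_div, mul_comm]
  refine ⟨?_, b1, ?_⟩
  · have e1 : y.e - y'.e = (y.e - z.e) - (y'.e - z.e) := by ring
    have h3 : |y.e - y'.e| ≤ D / 2 ^ V + D / 2 ^ V := by
      rw [e1]
      exact (abs_sub _ _).trans (add_le_add h.e h'.e)
    refine h3.trans ?_
    rw [← add_div, div_le_div_iff₀ pV (by positivity)]
    have e2 : (2 : ℝ) ^ V = 2 ^ k₀ * 2 ^ (V - k₀) := by
      rw [← pow_add]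
      congr 1
      omega
    rw [e2, one_mul]
    have : (0 : ℝ) < 2 ^ (V - k₀) := by positivity
    nlinarith
  · have e1 : Ae y.c y.s y'.c y'.s y'.e =
        (Ae y.c y.s z.c z.s z.e - Ae y'.c y'.s z.c z.s z.e) + (y.s - y'.s) * (y'.e - z.e) := by
      unfold Ae
      ring
    rw [e1]
    refine (abs_add_le _ _).trans ?_
    rw [abs_mul]
    have h3 : |y.s - y'.s| * |y'.e - z.e| ≤ 1 / 2 ^ (H + k) * (D / 2 ^ V) :=
      mul_le_mul b1 h'.e (abs_nonneg _) (by positivity)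
    refine (add_le_add a0 h3).trans ?_
    have e3 : (1 : ℝ) / 2 ^ k / 2 ^ R + 1 / 2 ^ (H + k) * (D / 2 ^ V) = (1 + D) / 2 ^ (R + k) := by
      rw [hR]
      simp only [pow_add]
      field_simp
    rw [e3, div_le_div_iff₀ (by positivity) (by positivity)]
    have e2 : (2 : ℝ) ^ (R + k) = 2 ^ k₀ * 2 ^ (R + k - k₀) := by
      rw [← pow_add]
      congr 1
      omega
    rw [e2, one_mul]
    have : (0 : ℝ) < 2 ^ (R + k - k₀) := by positivity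
    nlinarith

theorem ae_of_nfr {V H R : ℕ} {D ρ : ℝ} {y y' z : Pln} (h : Nfr V H R D y z)
    (h' : Nfr V H R D y' z) (hD : 0 ≤ D)
    (hρ : 2 * D / 2 ^ R + 2 * D * D / 2 ^ (H + V) ≤ ρ) : |Ae y.c y.s y'.c y'.s y'.e| ≤ ρ := by
  have e1 : Ae y.c y.s y'.c y'.s y'.e =
      (Ae y.c y.s z.c z.s z.e - Ae y'.c y'.s z.c z.s z.e) +
        ((y.s - z.s) - (y'.s - z.s)) * (y'.e - z.e) := by
    unfold Ae
    ring
  rw [e1]
  refine (abs_add_le _ _).trans (le_trans ?_ hρ)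
  rw [abs_mul]
  have h3 : |(y.s - z.s) - (y'.s - z.s)| ≤ D / 2 ^ H + D / 2 ^ H :=
    (abs_sub _ _).trans (add_le_add h.s h'.s)
  have h4 : |(y.s - z.s) - (y'.s - z.s)| * |y'.e - z.e| ≤ (D / 2 ^ H + D / 2 ^ H) * (D / 2 ^ V) :=
    mul_le_mul h3 h'.e (abs_nonneg _) (by positivity)
  have h5 := (abs_sub (Ae y.c y.s z.c z.s z.e) (Ae y'.c y'.s z.c z.s z.e)).trans
    (add_le_add h.c h'.c)
  refine (add_le_add h5 h4).trans (le_of_eq ?_)
  rw [pow_add]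
  field_simp
  ring

/-! ### Pairs given a label of the line and of the window -/

section Box

variable {J : ℕ}

/-- A pair which is charged by the law of the two samples. -/
theorem cpy_pos {Ω S : Type} [Fintype Ω] {q : Ω → ℝ} (hq : IsLaw q) {g : Ω → S} {x : Ω × Ω}
    (h0 : cpy q g x ≠ 0) : g x.1 = g x.2 ∧ 0 < q x.1 ∧ 0 < q x.2 := by
  classical
  refine ⟨?_, ?_, ?_⟩
  · by_contra hne
    apply h0
    unfold cpy
    rw [if_neg hne]
  · refine lt_of_le_of_ne (hq.nonneg _) fun h1 => h0 ?_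
    unfold cpy
    rw [← h1, zero_mul, zero_div, ite_self]
  · refine lt_of_le_of_ne (hq.nonneg _) fun h1 => h0 ?_
    unfold cpy
    rw [← h1, mul_zero, zero_div, ite_self]

/-- Transfer to the pairs given any label which is equivalent to the line and the window. -/
theorem Pr_dbl_le {Ω S T : Type} [Fintype Ω] {q : Ω → ℝ} (hq : IsLaw q) {g : Ω → S} {b : Ω → T}
    (h1 : Det q g b) (h2 : Det q b g) {E : Set (Ω × Ω)} {E' : Ω × Ω → Prop} {ε : ℝ}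
    (hE : ∀ x : Ω × Ω, g x.1 = g x.2 → 0 < q x.1 → 0 < q x.2 → x ∈ E → E' x)
    (h : Pe (cpy q g) E' ≤ ε) : Pool.KAF.Pr (dbl q b) E ≤ ε := by
  classical
  have e1 : dbl q b = cpy q g := by
    funext x
    exact dbl_eq_cpy hq h1 h2 x
  rw [e1]
  refine le_trans ?_ h
  show Pe (cpy q g) (fun x => x ∈ E) ≤ _
  rw [Pe_eq, Pe_eq]
  refine Finset.sum_le_sum fun x _ => ?_
  have hx0 := cpy_nn hq.nonneg g x
  by_cases h0 : cpy q g x = 0
  · rw [h0]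
    simp
  obtain ⟨k1, k2, k3⟩ := cpy_pos hq h0
  by_cases h3 : x ∈ E
  · rw [if_pos h3, if_pos (hE x k1 k2 k3 h3)]
  · rw [if_neg h3]
    split_ifs
    · exact hx0
    · exact le_rfl

/-- **(H6)** of the rising step in the units of a context. -/
theorem h6_box (F : Fam 3 J) {Qt : ℕ} (hQJ : Qt ≤ J) {i0 iu iN : Fin 3}
    (hi : ∀ j : Fin 3, j = i0 ∨ j = iu ∨ j = iN)
    {v W lam P P2 V H R k k₀ : ℕ} {C κ D δ : ℝ} (hC : 1 ≤ C) {A : F.Ω → Prop}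
    (hl : IsLaw (Pool.Agent.H49.Ent.cond F.p A True))
    {y z : F.Ω → Pln} (hI : ∀ ω, A ω → Inc i0 iu iN W lam P C (y ω) (F.t ω) (F.x ω) (F.d ω))
    {φ : (Fin 3 → ℤ) × (ℕ × F.ζ) → Pln} (hφ : ∀ ω, A ω → y ω = φ (ptq F Qt ω))
    {χ : ((Fin 3 → ℝ) × (Fin 3 → ℝ)) × F.ζ × ℕ → Pln} (hχ : ∀ ω, A ω → z ω = χ (slam F v ω))
    (hN : ∀ ω, A ω → Nfr V H R D (y ω) (z ω))
    (hR : R = H + V) (hk : k₀ ≤ V) (hD0 : 1 ≤ D) (hD : 2 * D ≤ 2 ^ k₀)
    (h1 : V ≤ lam + k₀) (h2 : v + V ≤ Qt + k₀) (h4 : P2 + k₀ ≤ v + (R + k))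
    (h5 : W + P2 ≤ v + P) (h6 : P2 ≤ Qt)
    (hB : ∀ B : F.Ω → Prop, Sub B A → Real.exp (-(κ + KC C)) * Pe F.p A ≤ Pe F.p B →
      ¬ LABq F Qt i0 iu iN v 0 P2 2 B)
    {T : Type} {b : F.Ω → T} (hb : Det (Pool.Agent.H49.Ent.cond F.p A True) (slam F v) b)
    (hb' : Det (Pool.Agent.H49.Ent.cond F.p A True) b (slam F v)) (hδ : δ ≤ 1 / 2 ^ k) :
    Pool.KAF.Pr (dbl (Pool.Agent.H49.Ent.cond F.p A True) b)
      {x | |Sc0 R (y x.1) (z x.1) - Sc0 R (y x.2) (z x.2)| < δ ∧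
        |Sc1 H (y x.1) (z x.1) - Sc1 H (y x.2) (z x.2)| < δ} ≤ Real.exp (-κ) := by
  have hA : ∀ ω, 0 < Pool.Agent.H49.Ent.cond F.p A True ω → A ω := fun ω hω => by
    have := ((cond_pos_iff F.isLaw.nonneg A True ω).1 hω).2
    simpa using this
  refine Pr_dbl_le hl hb hb' ?_ (h6r F hQJ hi (v := v) (W := W) (lam := lam) (P := P)
    (l2 := V - k₀) (sg := H + k) (ag := R + k - k₀) (P2 := P2) (κ := κ) hC hl hI hφ
    (by omega) (by omega) (by omega) (by omega) h5 h6 ?_)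
  · rintro x hg hx1 hx2 ⟨hx3, hx4⟩
    have k1 := hA _ hx1
    have k2 := hA _ hx2
    have e1 : z x.1 = z x.2 := by rw [hχ _ k1, hχ _ k2, hg]
    refine agr_of_sc (z := z x.2) hR hk hD0 hD ?_ (hN _ k2) ?_ ?_
    · rw [← e1]
      exact hN _ k1
    · rw [e1] at hx3
      exact hx3.le.trans hδ
    · rw [e1] at hx4
      exact hx4.le.trans hδ
  · intro B hBA hPB hLB
    refine hB B hBA hPB ?_
    obtain ⟨y', q1, q2, q3⟩ := hLB
    refine ⟨y', fun ω hω => ?_, q2, q3⟩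
    have q := q1 ω hω
    refine ⟨q.e_le, q.c_le, q.s_le, q.pe, q.pu.trans ?_, q.pn, q.ve, q.vu.trans ?_, q.vn⟩
    · exact div_le_div_of_nonneg_left (by norm_num) (by positivity)
        (pow_le_pow_right₀ (by norm_num) (by omega))
    · exact div_le_div_of_nonneg_left (by norm_num) (by positivity)
        (pow_le_pow_right₀ (by norm_num) (by omega))

/-- **(H7)** of the rising step in the units of a context. -/
theorem h7_box (F : Fam 3 J) {Qt : ℕ} {i0 iu iN : Fin 3}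
    (hi : ∀ j : Fin 3, j = i0 ∨ j = iu ∨ j = iN)
    {v W lam P V H R : ℕ} {C κ D δ r ρ : ℝ} (hC : 0 ≤ C) {A : F.Ω → Prop}
    (hl : IsLaw (Pool.Agent.H49.Ent.cond F.p A True))
    {y z : F.Ω → Pln} (hI : ∀ ω, A ω → Inc i0 iu iN W lam P C (y ω) (F.t ω) (F.x ω) (F.d ω))
    {φ : (Fin 3 → ℤ) × (ℕ × F.ζ) → Pln} (hφ : ∀ ω, A ω → y ω = φ (ptq F Qt ω))
    {χ : ((Fin 3 → ℝ) × (Fin 3 → ℝ)) × F.ζ × ℕ → Pln} (hχ : ∀ ω, A ω → z ω = χ (slam F v ω))
    (hN : ∀ ω, A ω → Nfr V H R D (y ω) (z ω)) (hD0 : 0 ≤ D)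
    (hρ : 2 * D / 2 ^ R + 2 * D * D / 2 ^ (H + V) ≤ ρ)
    (hr : 5 * C / 2 ^ lam + C * 2 ^ W / 2 ^ P ≤ r)
    (hB : ∀ B : F.Ω → Prop, Sub B A → Real.exp (-κ) * Pe F.p A ≤ Pe F.p B →
      ¬ RotU i0 r (5 * ρ) (ptq F Qt) (slam F v) F.d B)
    {T : Type} {b : F.Ω → T} (hb : Det (Pool.Agent.H49.Ent.cond F.p A True) (slam F v) b)
    (hb' : Det (Pool.Agent.H49.Ent.cond F.p A True) b (slam F v)) (hδ : δ ≤ ρ * 2 ^ V) :
    Pool.KAF.Pr (dbl (Pool.Agent.H49.Ent.cond F.p A True) b)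
      {x | |Sce V (y x.1) (z x.1) - Sce V (y x.2) (z x.2)| < δ} ≤ Real.exp (-κ) := by
  have hA : ∀ ω, 0 < Pool.Agent.H49.Ent.cond F.p A True ω → A ω := fun ω hω => by
    have := ((cond_pos_iff F.isLaw.nonneg A True ω).1 hω).2
    simpa using this
  refine Pr_dbl_le hl hb hb' ?_ (h7r F hi (v := v) (κ := κ) hC hl hI hφ hr hB)
  rintro x hg hx1 hx2 hx3
  have k1 := hA _ hx1
  have k2 := hA _ hx2
  have e1 : z x.1 = z x.2 := by rw [hχ _ k1, hχ _ k2, hg]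
  have n1 := hN _ k1
  have n2 := hN _ k2
  have hx4 : |Sce V (y x.1) (z x.1) - Sce V (y x.2) (z x.2)| < δ := hx3
  rw [e1] at n1 hx4
  refine ⟨?_, ae_of_nfr n1 n2 hD0 hρ⟩
  have h3 : |((y x.1).e - (z x.2).e) - ((y x.2).e - (z x.2).e)| ≤ δ / 2 ^ V := by
    refine scaled_le ?_
    exact hx4.le
  have e2 : (y x.1).e - (y x.2).e = ((y x.1).e - (z x.2).e) - ((y x.2).e - (z x.2).e) := by ring
  rw [e2]
  refine h3.trans ?_
  rw [div_le_iff₀ (by positivity)]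
  exact hδ

end Box

/-! ### Numbers of a class -/

/-- Above the number of a class, the property fails on all events which are not exponentially
small. -/
theorem num_no {m : ℕ} {S : PCl m} {q : ℝ → Stat m} {s : ℝ}
    (her : ∀ (s : ℝ) (J : ℕ) (F : Fam m J), Hered (q s J F)) (hs : PNum S q s) {h : ℝ}
    (hh : 0 < h) : ∃ c > 0, ∃ J₁ : ℕ, ∀ J ≥ J₁, ∀ (F : Fam m J) (A : F.Ω → Prop), S.St c J F A →
      ∀ B : F.Ω → Prop, Sub B A → Real.exp (-(c * J)) * Pe F.p A ≤ Pe F.p B →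
      ¬ q (s + h) J F B := by
  obtain ⟨c, hc, J₁, hn⟩ := Clp.neg_base (her (s + h)) (hs.2 h hh)
  refine ⟨c / 2, half_pos hc, J₁, fun J hJ F A hA B hB hP => hn J hJ F B ?_⟩
  exact S.mono (by linarith) (S.res (half_pos hc).le hA hB hP)

open Pool.S6C

theorem qTh_hered (i0 : Fin 3) (Q w s : ℝ) (J : ℕ) (F : Fam 3 J) :
    Hered (capS Q (qTh i0 Q w) s J F) := by
  intro A B hB h
  rcases h with h | ⟨h, iu, iN, hi, hL⟩
  · exact Or.inl h
  · exact Or.inr ⟨h, iu, iN, hi, LABq.hered _ _ _ _ _ _ _ _ _ A B hB hL⟩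

theorem qRot_hered (i0 : Fin 3) (Q w s : ℝ) (J : ℕ) (F : Fam 3 J) :
    Hered (capS 1 (qRot i0 Q w) s J F) := by
  intro A B hB h
  rcases h with h | ⟨h, hL⟩
  · exact Or.inl h
  · exact Or.inr ⟨h, RotU.hered _ _ _ _ _ _ A B hB hL⟩

/-- **(H6) at class level.** `G` is the thickness of the planks of the windows `w`, visible at the
row `Q`; visible planks on finer windows, seen in the units of a context of the windows `w`, are not
constant to `x J` digits (`k = x J` up to the constant `k₀`). -/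
theorem h6_cls {S : PCl 3} {i0 : Fin 3} {Q : ℝ} (hQ : Q ≤ 1) {w : ℚ} {G : ℝ}
    (hG : PNum S (capS Q (qTh i0 Q w)) G) {x : ℝ} (hx : 0 < x) (hGx : G + x ≤ Q) (C : ℝ)
    (hC : 1 ≤ C) :
    ∃ c > 0, ∃ J₁ : ℕ, ∀ J ≥ J₁, ∀ (F : Fam 3 J) (A : F.Ω → Prop), S.St c J F A →
      IsLaw (Pool.Agent.H49.Ent.cond F.p A True) → ∀ (iu iN : Fin 3),
      (∀ j : Fin 3, j = i0 ∨ j = iu ∨ j = iN) → ∀ (W lam P V H R k k₀ : ℕ) (D δ : ℝ)
      (y z : F.Ω → Pln), (∀ ω, A ω → Inc i0 iu iN W lam P C (y ω) (F.t ω) (F.x ω) (F.d ω)) →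
      (∃ φ : (Fin 3 → ℤ) × (ℕ × F.ζ) → Pln, ∀ ω, A ω → y ω = φ (ptq F ⌊Q * J⌋₊ ω)) →
      (∃ χ : ((Fin 3 → ℝ) × (Fin 3 → ℝ)) × F.ζ × ℕ → Pln,
        ∀ ω, A ω → z ω = χ (slam F ⌊(w : ℝ) * J⌋₊ ω)) →
      (∀ ω, A ω → Nfr V H R D (y ω) (z ω)) → R = H + V → k₀ ≤ V → 1 ≤ D → 2 * D ≤ 2 ^ k₀ →
      V ≤ lam + k₀ → ⌊(w : ℝ) * J⌋₊ + V ≤ ⌊Q * J⌋₊ + k₀ →
      ⌊(G + x) * J⌋₊ + k₀ ≤ ⌊(w : ℝ) * J⌋₊ + (R + k) →
      W + ⌊(G + x) * J⌋₊ ≤ ⌊(w : ℝ) * J⌋₊ + P → δ ≤ 1 / 2 ^ k → ∀ (T : Type) (b : F.Ω → T),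
      Det (Pool.Agent.H49.Ent.cond F.p A True) (slam F ⌊(w : ℝ) * J⌋₊) b →
      Det (Pool.Agent.H49.Ent.cond F.p A True) b (slam F ⌊(w : ℝ) * J⌋₊) →
      Pool.KAF.Pr (dbl (Pool.Agent.H49.Ent.cond F.p A True) b)
        {x | |Sc0 R (y x.1) (z x.1) - Sc0 R (y x.2) (z x.2)| < δ ∧
          |Sc1 H (y x.1) (z x.1) - Sc1 H (y x.2) (z x.2)| < δ} ≤ Real.exp (-(c * J)) := by
  obtain ⟨c, hc, J₁, hn⟩ := num_no (qTh_hered i0 Q w) hG hx
  obtain ⟨J₂, hJ₂⟩ := exists_nat_gt (KC C / (c / 2))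
  refine ⟨c / 2, half_pos hc, max J₁ J₂, fun J hJ F A hS hl iu iN hi W lam P V H R k k₀ D δ y z hI
    ⟨φ, hφ⟩ ⟨χ, hχ⟩ hN hR hk hD0 hD h1 h2 h4 h5 hδ T b hb hb' => ?_⟩
  have hJ1 : J₁ ≤ J := (le_max_left _ _).trans hJ
  have hJ2 : (J₂ : ℝ) ≤ J := by exact_mod_cast (le_max_right _ _).trans hJ
  have hKC : KC C ≤ c / 2 * J := by
    have := hJ₂.trans_le hJ2
    rw [div_lt_iff₀ (half_pos hc)] at this
    linarith
  have hJ0 : (0 : ℝ) ≤ J := Nat.cast_nonneg J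
  have hQJ : ⌊Q * J⌋₊ ≤ J := by
    refine Nat.floor_le_of_le ?_
    nlinarith
  refine h6_box F hQJ hi (κ := c / 2 * J) (P2 := ⌊(G + x) * J⌋₊) hC hl hI hφ hχ hN hR hk hD0 hD h1
    h2 h4 h5 (Nat.floor_le_floor (mul_le_mul_of_nonneg_right hGx hJ0)) ?_ hb hb' hδ
  intro B hBA hPB hLB
  refine hn J hJ1 F A (S.mono (by linarith) hS) B hBA ?_ (Or.inr ⟨hGx, iu, iN, hi, hLB⟩)
  refine le_trans ?_ hPB
  refine mul_le_mul_of_nonneg_right (Real.exp_le_exp.2 ?_) (Pe_nonneg F.isLaw A)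
  linarith

/-- **(H7) at class level.** `ρ₀` is the constancy of the directions on the windows `w`, visible at
the row `Q`; in the units of a context of the windows `w` the directions are not constant to `x J`
digits. -/
theorem h7_cls {S : PCl 3} {i0 : Fin 3} {Q : ℝ} {w : ℚ} {ρ₀ : ℝ}
    (hG : PNum S (capS 1 (qRot i0 Q w)) ρ₀) {x : ℝ} (hx : 0 < x) (hx1 : ρ₀ + x ≤ 1) :
    ∃ c > 0, ∃ J₁ : ℕ, ∀ J ≥ J₁, ∀ (F : Fam 3 J) (A : F.Ω → Prop), S.St c J F A →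
      IsLaw (Pool.Agent.H49.Ent.cond F.p A True) → ∀ (iu iN : Fin 3),
      (∀ j : Fin 3, j = i0 ∨ j = iu ∨ j = iN) → ∀ (W lam P V H R : ℕ) (C D δ ρ : ℝ)
      (y z : F.Ω → Pln), 0 ≤ C →
      (∀ ω, A ω → Inc i0 iu iN W lam P C (y ω) (F.t ω) (F.x ω) (F.d ω)) →
      (∃ φ : (Fin 3 → ℤ) × (ℕ × F.ζ) → Pln, ∀ ω, A ω → y ω = φ (ptq F ⌊Q * J⌋₊ ω)) →
      (∃ χ : ((Fin 3 → ℝ) × (Fin 3 → ℝ)) × F.ζ × ℕ → Pln,
        ∀ ω, A ω → z ω = χ (slam F ⌊(w : ℝ) * J⌋₊ ω)) →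
      (∀ ω, A ω → Nfr V H R D (y ω) (z ω)) → 0 ≤ D →
      2 * D / 2 ^ R + 2 * D * D / 2 ^ (H + V) ≤ ρ → 5 * ρ ≤ 1 / 2 ^ ⌊(ρ₀ + x) * J⌋₊ →
      5 * C / 2 ^ lam + C * 2 ^ W / 2 ^ P ≤ 1 / 2 ^ ⌊(ρ₀ + x) * J⌋₊ → δ ≤ ρ * 2 ^ V →
      ∀ (T : Type) (b : F.Ω → T),
      Det (Pool.Agent.H49.Ent.cond F.p A True) (slam F ⌊(w : ℝ) * J⌋₊) b →
      Det (Pool.Agent.H49.Ent.cond F.p A True) b (slam F ⌊(w : ℝ) * J⌋₊) →
      Pool.KAF.Pr (dbl (Pool.Agent.H49.Ent.cond F.p A True) b)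
        {x | |Sce V (y x.1) (z x.1) - Sce V (y x.2) (z x.2)| < δ} ≤ Real.exp (-(c * J)) := by
  obtain ⟨c, hc, J₁, hn⟩ := num_no (qRot_hered i0 Q w) hG hx
  refine ⟨c, hc, J₁, fun J hJ F A hS hl iu iN hi W lam P V H R C D δ ρ y z hC hI
    ⟨φ, hφ⟩ ⟨χ, hχ⟩ hN hD0 hρ h5 hr hδ T b hb hb' => ?_⟩
  refine h7_box F hi (κ := c * J) hC hl hI hφ hχ hN hD0 hρ hr ?_ hb hb' hδ
  intro B hBA hPB hLB
  exact hn J hJ F A hS B hBA hPB (Or.inr ⟨hx1, hLB.mono le_rfl h5⟩)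

end Pool.KS6
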