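import Pool.Agent.H9.S6.H7R
import Pool.Agent.H97.S6.Frg

/-!
# (H6) and (H7) in the contexts with one generalised time

The labels of the pairs are the block of the line and the context, which are functions of the line
and of the window.
-/

set_option autoImplicit false

namespace Pool.S6N

open Finset Real
open Pool.Agent.H49.Ent Pool.Agent.H32.Dense Pool.STK Pool.KA Pool.KSAT Pool.K3 Pool.K2S Pool.PB
open Pool.KS6

section Lab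

variable {J : ℕ}

/-- A function of a coarser label is a function of the label. -/
theorem lift_lab {Ω S T U : Type} {g : Ω → S} {b : Ω → T}
    (hb : ∀ ω ω', g ω = g ω' → b ω = b ω') (ζ : T → U) (u0 : U) :
    ∃ ζ' : S → U, ∀ ω, ζ' (g ω) = ζ (b ω) := by
  classical
  refine ⟨fun s => if h : ∃ ω, g ω = s then ζ (b h.choose) else u0, fun ω => ?_⟩
  have h : ∃ ω', g ω' = g ω := ⟨ω, rfl⟩
  beta_reduce
  rw [dif_pos h]
  congr 1
  exact hb _ _ h.choose_spec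

/-- The pairs given a label. -/
theorem dbl_eq_self {Ω T : Type} [Fintype Ω] {q : Ω → ℝ} (hq : IsLaw q) (b : Ω → T) :
    dbl q b = cpy q b := by
  funext x
  exact dbl_eq_cpy hq (fun _ _ _ _ h => h) (fun _ _ _ _ h => h) x

/-- Transfer to the pairs given a label. -/
theorem Pr_dbl_self {Ω T : Type} [Fintype Ω] {q : Ω → ℝ} (hq : IsLaw q) {b : Ω → T}
    {E : Set (Ω × Ω)} {E' : Ω × Ω → Prop} {ε : ℝ}
    (hE : ∀ x : Ω × Ω, b x.1 = b x.2 → 0 < q x.1 → 0 < q x.2 → x ∈ E → E' x)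
    (h : Pe (cpy q b) E' ≤ ε) : Pool.KAF.Pr (dbl q b) E ≤ ε :=
  Pr_dbl_le hq (fun _ _ _ _ h => h) (fun _ _ _ _ h => h) hE h

/-- **(H6)** given any label which is a function of the line and the window. -/
theorem h6b (F : Fam 3 J) {Qt : ℕ} (hQJ : Qt ≤ J) {i0 iu iN : Fin 3}
    (hi : ∀ j : Fin 3, j = i0 ∨ j = iu ∨ j = iN)
    {v W lam P l2 sg ag P2 : ℕ} {C κ : ℝ} (hC : 1 ≤ C) {A : F.Ω → Prop}
    (hl : IsLaw (Pool.Agent.H49.Ent.cond F.p A True))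
    {y : F.Ω → Pln} (hI : ∀ ω, A ω → Inc i0 iu iN W lam P C (y ω) (F.t ω) (F.x ω) (F.d ω))
    {φ : (Fin 3 → ℤ) × (ℕ × F.ζ) → Pln} (hφ : ∀ ω, A ω → y ω = φ (ptq F Qt ω))
    {T : Type} {b : F.Ω → T} (hb : ∀ ω ω', slam F v ω = slam F v ω' → b ω = b ω')
    (h1 : l2 ≤ lam) (h2 : v + l2 ≤ Qt) (h3 : ag ≤ sg + l2) (h4 : P2 ≤ v + ag)
    (h5 : W + P2 ≤ v + P) (h6 : P2 ≤ Qt)
    (hB : ∀ B : F.Ω → Prop, Sub B A → Real.exp (-(κ + KC C)) * Pe F.p A ≤ Pe F.p B →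
      ¬ LABq F Qt i0 iu iN v l2 P2 2 B) :
    Pe (cpy (Pool.Agent.H49.Ent.cond F.p A True) b)
      (fun x => Agr l2 sg ag (y x.1) (y x.2)) ≤ Real.exp (-κ) := by
  classical
  have hp := F.isLaw
  have hA := pos_of_cond hp hl
  by_contra hcon
  push Not at hcon
  obtain ⟨ζ₀, hζ₀⟩ := exists_fn_of_cpy hl y b (Agr l2 sg ag) hcon.le
  obtain ⟨ζ, hζζ⟩ := lift_lab hb ζ₀ (⟨0, 0, 0, 0, 0⟩ : Pln)
  have hζ : Real.exp (-κ) ≤ Pe (Pool.Agent.H49.Ent.cond F.p A True)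
      (fun ω => Agr l2 sg ag (y ω) (ζ (slam F v ω))) := by
    simp only [hζζ]
    exact hζ₀
  rw [Pe_cond, le_div_iff₀ hA] at hζ
  obtain ⟨A', hA'⟩ : ∃ A' : F.Ω → Prop, A' = fun ω => A ω ∧ Agr l2 sg ag (y ω) (ζ (slam F v ω)) :=
    ⟨_, rfl⟩
  have hAA : Sub A' A := by rw [hA']; exact fun ω hω => hω.1
  have hPA : Real.exp (-κ) * Pe F.p A ≤ Pe F.p A' := by rw [hA']; exact hζ
  have hA'0 : 0 < Pe F.p A' := lt_of_lt_of_le (mul_pos (Real.exp_pos _) hA) hPA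
  obtain ⟨B, hBA, hPB, hLB⟩ := lab_prod F hQJ hi hC hA'0 (fun ω hω => hI ω (hAA ω hω))
    (fun ω hω => hφ ω (hAA ω hω)) (ζ := ζ)
    (fun ω hω => by
      rw [hA'] at hω
      exact hω.2) h1 h2 h3 h4 h5 h6
  refine hB B (fun ω hω => hAA ω (hBA ω hω)) ?_ hLB
  rw [← exp_KC] at hPB
  refine le_trans ?_ hPB
  rw [neg_add, Real.exp_add]
  have := mul_le_mul_of_nonneg_left hPA (Real.exp_pos (-KC C)).le
  nlinarith only [this, Real.exp_pos (-κ), Real.exp_pos (-KC C)]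

/-- The union bound. -/
theorem Pe_le_sumI {Ω ι : Type} [Fintype Ω] {p : Ω → ℝ} (h0 : ∀ ω, 0 ≤ p ω) (s : Finset ι)
    (A : Ω → Prop) (B : ι → Ω → Prop) (h : ∀ ω, A ω → ∃ i ∈ s, B i ω) :
    Pe p A ≤ ∑ i ∈ s, Pe p (B i) := by
  classical
  have e1 : ∀ i, Pe p (B i) = ∑ ω, if B i ω then p ω else 0 := by
    intro i
    rw [Pe_eq]
  simp only [e1]
  rw [Pe_eq, Finset.sum_comm]
  refine Finset.sum_le_sum fun ω _ => ?_
  split_ifs with h1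
  · obtain ⟨i, hi, hB⟩ := h ω h1
    refine le_trans (le_of_eq ?_) (Finset.single_le_sum (f := fun i => if B i ω then p ω else 0)
      (fun i _ => ?_) hi)
    · rw [if_pos hB]
    · split_ifs
      · exact h0 ω
      · exact le_rfl
  · refine Finset.sum_nonneg fun i _ => ?_
    split_ifs
    · exact h0 ω
    · exact le_rfl

/-- (H6) given any label, with a shift of the direction. -/
theorem h6b_sh (F : Fam 3 J) {Qt : ℕ} (hQJ : Qt ≤ J) {i0 iu iN : Fin 3}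
    (hi : ∀ j : Fin 3, j = i0 ∨ j = iu ∨ j = iN)
    {v W lam P sg ag P2 : ℕ} {C κ r : ℝ} (hC : 1 ≤ C) (hr : |r| ≤ 5) {A : F.Ω → Prop}
    (hl : IsLaw (Pool.Agent.H49.Ent.cond F.p A True))
    {y : F.Ω → Pln} (hI : ∀ ω, A ω → Inc i0 iu iN W lam P C (y ω) (F.t ω) (F.x ω) (F.d ω))
    {φ : (Fin 3 → ℤ) × (ℕ × F.ζ) → Pln} (hφ : ∀ ω, A ω → y ω = φ (ptq F Qt ω))
    {T : Type} {b : F.Ω → T} (hb : ∀ ω ω', slam F v ω = slam F v ω' → b ω = b ω')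
    (h2 : v ≤ Qt) (h3 : ag ≤ sg) (ha : 3 ≤ ag) (h4 : P2 + 3 ≤ v + ag)
    (h5 : W + P2 ≤ v + P) (h6 : P2 ≤ Qt)
    (hB : ∀ B : F.Ω → Prop, Sub B A → Real.exp (-(κ + KC C)) * Pe F.p A ≤ Pe F.p B →
      ¬ LABq F Qt i0 iu iN v 0 P2 2 B) :
    Pe (cpy (Pool.Agent.H49.Ent.cond F.p A True) b)
      (fun x => |(y x.1).e - ((y x.2).e + r)| ≤ 1 ∧ |(y x.1).s - (y x.2).s| ≤ 1 / 2 ^ sg ∧
        |Ae (y x.1).c (y x.1).s (y x.2).c (y x.2).s (y x.2).e| ≤ 1 / 2 ^ ag) ≤ Real.exp (-κ) := by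
  classical
  have hp := F.isLaw
  have hA := pos_of_cond hp hl
  by_contra hcon
  push Not at hcon
  obtain ⟨ζ₀, hζ₀⟩ := exists_fn_of_cpy hl y b (fun y y' : Pln => |y.e - (y'.e + r)| ≤ 1 ∧
    |y.s - y'.s| ≤ 1 / 2 ^ sg ∧ |Ae y.c y.s y'.c y'.s y'.e| ≤ 1 / 2 ^ ag) hcon.le
  obtain ⟨ζ, hζζ⟩ := lift_lab hb (fun l => (⟨(ζ₀ l).e + r, (ζ₀ l).c, (ζ₀ l).s, (ζ₀ l).xb,
    (ζ₀ l).db⟩ : Pln)) (⟨0, 0, 0, 0, 0⟩ : Pln)
  have hζ : Real.exp (-κ) ≤ Pe (Pool.Agent.H49.Ent.cond F.p A True)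
      (fun ω => Agr 0 sg (ag - 3) (y ω) (ζ (slam F v ω))) := by
    refine hζ₀.trans (Pe_mono hl fun ω hω => ?_)
    obtain ⟨q1, q2, q3⟩ := hω
    rw [hζζ]
    refine ⟨?_, q2, ?_⟩
    · rw [pow_zero, div_one]
      exact q1
    · have e1 : Ae (y ω).c (y ω).s (ζ₀ (b ω)).c (ζ₀ (b ω)).s ((ζ₀ (b ω)).e + r) =
          Ae (y ω).c (y ω).s (ζ₀ (b ω)).c (ζ₀ (b ω)).s (ζ₀ (b ω)).e +
            ((y ω).s - (ζ₀ (b ω)).s) * r := by
        unfold Ae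
        ring
      rw [e1]
      refine (abs_add_le _ _).trans ?_
      rw [abs_mul]
      have g1 : |(y ω).s - (ζ₀ (b ω)).s| * |r| ≤ 1 / 2 ^ sg * 5 :=
        mul_le_mul q2 hr (abs_nonneg _) (by positivity)
      have g2 : (1 : ℝ) / 2 ^ sg ≤ 1 / 2 ^ ag :=
        div_le_div_of_nonneg_left (by norm_num) (by positivity)
          (pow_le_pow_right₀ (by norm_num) h3)
      have g3 : (1 : ℝ) / 2 ^ (ag - 3) = 8 * (1 / 2 ^ ag) := by
        have e2 : (2 : ℝ) ^ ag = 2 ^ 3 * 2 ^ (ag - 3) := by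
          rw [← pow_add]
          congr 1
          omega
        rw [e2]
        field_simp
        norm_num
      have g4 : (0 : ℝ) ≤ 1 / 2 ^ ag := by positivity
      rw [g3]
      linarith only [q3, g1, g2, g4]
  rw [Pe_cond, le_div_iff₀ hA] at hζ
  obtain ⟨A', hA'⟩ : ∃ A' : F.Ω → Prop, A' = fun ω => A ω ∧
    Agr 0 sg (ag - 3) (y ω) (ζ (slam F v ω)) := ⟨_, rfl⟩
  have hAA : Sub A' A := by rw [hA']; exact fun ω hω => hω.1
  have hPA : Real.exp (-κ) * Pe F.p A ≤ Pe F.p A' := by rw [hA']; exact hζ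
  have hA'0 : 0 < Pe F.p A' := lt_of_lt_of_le (mul_pos (Real.exp_pos _) hA) hPA
  obtain ⟨B, hBA, hPB, hLB⟩ := lab_prod F hQJ hi hC hA'0 (fun ω hω => hI ω (hAA ω hω))
    (fun ω hω => hφ ω (hAA ω hω)) (ζ := ζ)
    (fun ω hω => by
      rw [hA'] at hω
      exact hω.2) (by omega) (by omega) (by omega) (by omega) h5 h6
  refine hB B (fun ω hω => hAA ω (hBA ω hω)) ?_ hLB
  rw [← exp_KC] at hPB
  refine le_trans ?_ hPB
  rw [neg_add, Real.exp_add]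
  have := mul_le_mul_of_nonneg_left hPA (Real.exp_pos (-KC C)).le
  nlinarith only [this, Real.exp_pos (-κ), Real.exp_pos (-KC C)]

/-- (H6) given any label, without any knowledge of the direction. -/
theorem h6b0 (F : Fam 3 J) {Qt : ℕ} (hQJ : Qt ≤ J) {i0 iu iN : Fin 3}
    (hi : ∀ j : Fin 3, j = i0 ∨ j = iu ∨ j = iN)
    {v W lam P sg ag P2 : ℕ} {C κ : ℝ} (hC : 1 ≤ C) {A : F.Ω → Prop}
    (hl : IsLaw (Pool.Agent.H49.Ent.cond F.p A True))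
    {y : F.Ω → Pln} (hI : ∀ ω, A ω → Inc i0 iu iN W lam P C (y ω) (F.t ω) (F.x ω) (F.d ω))
    {φ : (Fin 3 → ℤ) × (ℕ × F.ζ) → Pln} (hφ : ∀ ω, A ω → y ω = φ (ptq F Qt ω))
    {T : Type} {b : F.Ω → T} (hb : ∀ ω ω', slam F v ω = slam F v ω' → b ω = b ω')
    (h2 : v ≤ Qt) (h3 : ag ≤ sg) (ha : 3 ≤ ag) (h4 : P2 + 3 ≤ v + ag)
    (h5 : W + P2 ≤ v + P) (h6 : P2 ≤ Qt)
    (hB : ∀ B : F.Ω → Prop, Sub B A → Real.exp (-(κ + Real.log 9 + KC C)) * Pe F.p A ≤ Pe F.p B →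
      ¬ LABq F Qt i0 iu iN v 0 P2 2 B) :
    Pe (cpy (Pool.Agent.H49.Ent.cond F.p A True) b)
      (fun x => |(y x.1).e - (y x.2).e| ≤ 4 ∧ |(y x.1).s - (y x.2).s| ≤ 1 / 2 ^ sg ∧
        |Ae (y x.1).c (y x.1).s (y x.2).c (y x.2).s (y x.2).e| ≤ 1 / 2 ^ ag) ≤ Real.exp (-κ) := by
  classical
  have hcn : ∀ x, 0 ≤ cpy (Pool.Agent.H49.Ent.cond F.p A True) b x := cpy_nn hl.nonneg b
  have key : ∀ r ∈ Finset.Icc (-4 : ℤ) 4,
      Pe (cpy (Pool.Agent.H49.Ent.cond F.p A True) b)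
        (fun x => |(y x.1).e - ((y x.2).e + r)| ≤ 1 ∧ |(y x.1).s - (y x.2).s| ≤ 1 / 2 ^ sg ∧
          |Ae (y x.1).c (y x.1).s (y x.2).c (y x.2).s (y x.2).e| ≤ 1 / 2 ^ ag) ≤
        Real.exp (-(κ + Real.log 9)) := by
    intro r hr
    rw [Finset.mem_Icc] at hr
    refine h6b_sh F hQJ hi hC ?_ hl hI hφ hb h2 h3 ha h4 h5 h6 hB
    rw [abs_le]
    have h1 : (-4 : ℝ) ≤ r := by exact_mod_cast hr.1
    have h2 : (r : ℝ) ≤ 4 := by exact_mod_cast hr.2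
    constructor <;> linarith
  have hsum : Pe (cpy (Pool.Agent.H49.Ent.cond F.p A True) b)
      (fun x => |(y x.1).e - (y x.2).e| ≤ 4 ∧ |(y x.1).s - (y x.2).s| ≤ 1 / 2 ^ sg ∧
        |Ae (y x.1).c (y x.1).s (y x.2).c (y x.2).s (y x.2).e| ≤ 1 / 2 ^ ag) ≤
      ∑ r ∈ Finset.Icc (-4 : ℤ) 4, Pe (cpy (Pool.Agent.H49.Ent.cond F.p A True) b)
        (fun x => |(y x.1).e - ((y x.2).e + r)| ≤ 1 ∧ |(y x.1).s - (y x.2).s| ≤ 1 / 2 ^ sg ∧
          |Ae (y x.1).c (y x.1).s (y x.2).c (y x.2).s (y x.2).e| ≤ 1 / 2 ^ ag) := by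
    refine Pe_le_sumI hcn _ _ _ fun x ⟨q1, q2, q3⟩ => ⟨⌊(y x.1).e - (y x.2).e⌋, ?_, ?_, q2, q3⟩
    · rw [Finset.mem_Icc]
      rw [abs_le] at q1
      constructor
      · rw [Int.le_floor]
        push_cast
        exact q1.1
      · rw [Int.floor_le_iff]
        push_cast
        linarith only [q1, q1.2]
    · have f1 := Int.floor_le ((y x.1).e - (y x.2).e)
      have f2 := Int.lt_floor_add_one ((y x.1).e - (y x.2).e)
      rw [abs_le]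
      constructor <;> linarith
  refine hsum.trans ((Finset.sum_le_sum key).trans ?_)
  have hcd : (Finset.Icc (-4 : ℤ) 4).card = 9 := rfl
  rw [Finset.sum_const, hcd, neg_add, Real.exp_add, Real.exp_neg (Real.log 9),
    Real.exp_log (by norm_num), nsmul_eq_mul]
  push_cast
  linarith only [Real.exp_pos (-κ)]

/-- **(H7)** given any label which is a function of the line and the window. -/
theorem h7b (F : Fam 3 J) {Qt : ℕ} {i0 iu iN : Fin 3}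
    (hi : ∀ j : Fin 3, j = i0 ∨ j = iu ∨ j = iN)
    {v W lam P : ℕ} {C κ r ρ : ℝ} (hC : 0 ≤ C) {A : F.Ω → Prop}
    (hl : IsLaw (Pool.Agent.H49.Ent.cond F.p A True))
    {y : F.Ω → Pln} (hI : ∀ ω, A ω → Inc i0 iu iN W lam P C (y ω) (F.t ω) (F.x ω) (F.d ω))
    {φ : (Fin 3 → ℤ) × (ℕ × F.ζ) → Pln} (hφ : ∀ ω, A ω → y ω = φ (ptq F Qt ω))
    {T : Type} {b : F.Ω → T} (hb : ∀ ω ω', slam F v ω = slam F v ω' → b ω = b ω')
    (hr : 5 * C / 2 ^ lam + C * 2 ^ W / 2 ^ P ≤ r)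
    (hB : ∀ B : F.Ω → Prop, Sub B A → Real.exp (-κ) * Pe F.p A ≤ Pe F.p B →
      ¬ RotU i0 r (5 * ρ) (ptq F Qt) (slam F v) F.d B) :
    Pe (cpy (Pool.Agent.H49.Ent.cond F.p A True) b)
      (fun x => |(y x.1).e - (y x.2).e| ≤ ρ ∧
        |Ae (y x.1).c (y x.1).s (y x.2).c (y x.2).s (y x.2).e| ≤ ρ) ≤ Real.exp (-κ) := by
  classical
  have hp := F.isLaw
  have hA := pos_of_cond hp hl
  by_contra hcon
  push Not at hcon
  obtain ⟨ζ₀, hζ₀⟩ := exists_fn_of_cpy hl y b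
    (fun a b : Pln => |a.e - b.e| ≤ ρ ∧ |Ae a.c a.s b.c b.s b.e| ≤ ρ) hcon.le
  obtain ⟨ζ, hζζ⟩ := lift_lab hb ζ₀ (⟨0, 0, 0, 0, 0⟩ : Pln)
  have hζ : Real.exp (-κ) ≤ Pe (Pool.Agent.H49.Ent.cond F.p A True)
      (fun ω => |(y ω).e - (ζ (slam F v ω)).e| ≤ ρ ∧
        |Ae (y ω).c (y ω).s (ζ (slam F v ω)).c (ζ (slam F v ω)).s (ζ (slam F v ω)).e| ≤ ρ) := by
    simp only [hζζ]
    exact hζ₀
  rw [Pe_cond, le_div_iff₀ hA] at hζ
  have hp2 : (0 : ℝ) ≤ C / 2 ^ lam := by positivity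
  have hp3 : (0 : ℝ) ≤ C * 2 ^ W / 2 ^ P := by positivity
  have e5 : 5 * C / 2 ^ lam = 5 * (C / (2 : ℝ) ^ lam) := by ring
  rw [e5] at hr
  refine hB _ (fun ω hω => hω.1) hζ ⟨
    fun u j => if j = i0 then 1 else if j = iu then (φ u).e else -((φ u).c + (φ u).s * (φ u).e),
    fun u j => if j = i0 then 0 else if j = iu then fu i0 iu (φ u).e (φ u).db else
      fn i0 iu iN (φ u).c (φ u).s (φ u).db - (φ u).s * fu i0 iu (φ u).e (φ u).db,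
    fun l j => if j = i0 then 1 else if j = iu then (ζ l).e else
      -((ζ l).c + (ζ l).s * (ζ l).e), ?_, ?_⟩
  · rintro ω ⟨hω, -⟩ j
    beta_reduce
    have h := hI ω hω
    have h4 := h.s_le
    have h5 := h.vu
    have h6 := h.vn
    rw [hφ ω hω] at h4 h5 h6
    generalize φ (ptq F Qt ω) = z at h4 h5 h6 ⊢
    by_cases j0 : j = i0
    · subst j0
      simp only [if_true]
      rw [one_mul, sub_self, sub_zero, abs_zero]
      linarith only [hr, hp2, hp3]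
    by_cases j1 : j = iu
    · subst j1
      rw [if_neg j0, if_neg j0, if_pos rfl, if_pos rfl]
      refine le_trans (le_of_eq ?_) (h5.trans (by linarith only [hr, hp2, hp3]))
      unfold fu
      congr 1
    · have j2 : j = iN := by
        rcases hi j with h | h | h
        · exact (j0 h).elim
        · exact (j1 h).elim
        · exact h
      subst j2
      rw [if_neg j0, if_neg j0, if_neg j1, if_neg j1]
      have e1 : F.d ω j - -(z.c + z.s * z.e) * F.d ω i0 -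
          (fn i0 iu j z.c z.s z.db - z.s * fu i0 iu z.e z.db) =
          (fn i0 iu j z.c z.s (F.d ω) - fn i0 iu j z.c z.s z.db) -
            z.s * (fu i0 iu z.e (F.d ω) - fu i0 iu z.e z.db) := by
        unfold fn fu
        ring
      rw [e1]
      refine (abs_sub _ _).trans ?_
      rw [abs_mul]
      have h7 : |z.s| * |fu i0 iu z.e (F.d ω) - fu i0 iu z.e z.db| ≤ 4 * (C / 2 ^ lam) :=
        mul_le_mul h4 h5 (abs_nonneg _) (by norm_num)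
      linarith only [hr, hp2, h6, h7]
  · rintro ω ⟨hω, hω2⟩ j
    beta_reduce
    have h4 := (hI ω hω).s_le
    rw [hφ ω hω] at h4 hω2
    generalize φ (ptq F Qt ω) = z at h4 hω2 ⊢
    generalize ζ (slam F v ω) = z' at hω2 ⊢
    obtain ⟨k1, k2⟩ := hω2
    have hρ : 0 ≤ ρ := (abs_nonneg _).trans k1
    by_cases j0 : j = i0
    · subst j0
      simp only [if_true]
      rw [sub_self, abs_zero]
      linarith only [hρ]
    by_cases j1 : j = iu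
    · subst j1
      rw [if_neg j0, if_neg j0, if_pos rfl, if_pos rfl]
      linarith only [k1, hρ]
    · rw [if_neg j0, if_neg j0, if_neg j1, if_neg j1]
      have e1 : -(z.c + z.s * z.e) - -(z'.c + z'.s * z'.e) =
          -(Ae z.c z.s z'.c z'.s z'.e + z.s * (z.e - z'.e)) := by
        unfold Ae
        ring
      rw [e1, abs_neg]
      refine (abs_add_le _ _).trans ?_
      rw [abs_mul]
      have h7 : |z.s| * |z.e - z'.e| ≤ 4 * ρ := mul_le_mul h4 k1 (abs_nonneg _) (by norm_num)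
      linarith only [k2, h7]

end Lab

/-! ### The frames of the contexts -/

/-- The plank of slopes `a`, `s`, `t` of the frame. -/
def fpl (a s t : ℝ) : Pln := ⟨a, -t, -s, 0, 0⟩

/-- The frame of a visible plank. -/
def Vpl (y : Pln) (a s t : ℝ) : Prop := y.e = a ∧ y.c = -t ∧ y.s = -s

section Box

variable {J : ℕ}

theorem nfr_of_frg {F : Fam 3 J} {A : F.Ω → Prop} {w V H : ℕ} {D : ℝ} {a s t a' s' t' : F.Ω → ℝ}
    (hF : Frg F A w V H D a s t a' s' t') {y : F.Ω → Pln}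
    (hy : ∀ ω, A ω → Vpl (y ω) (a' ω) (s' ω) (t' ω)) {ω : F.Ω} (hω : A ω) :
    Nfr V H (V + H) D (y ω) (fpl (a ω) (s ω) (t ω)) := by
  obtain ⟨h1, h2, h3⟩ := hy ω hω
  refine ⟨?_, ?_, ?_⟩
  · rw [h1]
    exact hF.ca ω hω
  · rw [h3]
    have e1 : -s' ω - (fpl (a ω) (s ω) (t ω)).s = -(s' ω - s ω) := by
      unfold fpl
      ring
    rw [e1, abs_neg]
    exact hF.cs ω hω
  · rw [h2, h3]
    have e1 : Ae (-t' ω) (-s' ω) (fpl (a ω) (s ω) (t ω)).c (fpl (a ω) (s ω) (t ω)).s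
        (fpl (a ω) (s ω) (t ω)).e = -((t' ω - t ω) + (s' ω - s ω) * a ω) := by
      unfold fpl Ae
      ring
    rw [e1, abs_neg]
    exact hF.ct ω hω

theorem sc0_frg {F : Fam 3 J} {V H : ℕ} {a s t a' s' t' : F.Ω → ℝ} {y : Pln} {ω : F.Ω}
    (hy : Vpl y (a' ω) (s' ω) (t' ω)) :
    Sc0 (V + H) y (fpl (a ω) (s ω) (t ω)) = -SS V H a s t s' t' 0 ω := by
  obtain ⟨h1, h2, h3⟩ := hy
  show 2 ^ (V + H) * Ae y.c y.s (fpl (a ω) (s ω) (t ω)).c (fpl (a ω) (s ω) (t ω)).s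
    (fpl (a ω) (s ω) (t ω)).e = -(2 ^ (V + H) * ((t' ω - t ω) + (s' ω - s ω) * a ω))
  rw [h2, h3]
  unfold fpl Ae
  ring

theorem sc1_frg {F : Fam 3 J} {V H : ℕ} {a s t a' s' t' : F.Ω → ℝ} {y : Pln} {ω : F.Ω}
    (hy : Vpl y (a' ω) (s' ω) (t' ω)) :
    Sc1 H y (fpl (a ω) (s ω) (t ω)) = -SS V H a s t s' t' 1 ω := by
  obtain ⟨h1, h2, h3⟩ := hy
  show 2 ^ H * (y.s - (fpl (a ω) (s ω) (t ω)).s) = -(2 ^ H * (s' ω - s ω))
  rw [h3]
  unfold fpl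
  ring

theorem sce_frg {F : Fam 3 J} {V : ℕ} {a s t a' s' t' : F.Ω → ℝ} {y : Pln} {ω : F.Ω}
    (hy : Vpl y (a' ω) (s' ω) (t' ω)) :
    Sce V y (fpl (a ω) (s ω) (t ω)) = EE V a a' ω := by
  obtain ⟨h1, h2, h3⟩ := hy
  show 2 ^ V * (y.e - (fpl (a ω) (s ω) (t ω)).e) = 2 ^ V * (a' ω - a ω)
  rw [h1]
  unfold fpl
  ring

theorem sig_all {σ : Fin 3 → Fin 3} (hσ : Function.Injective σ) (j : Fin 3) :
    j = σ 0 ∨ j = σ 1 ∨ j = σ 2 := by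
  obtain ⟨i, rfl⟩ := (Finite.injective_iff_surjective.1 hσ) j
  fin_cases i
  · exact Or.inl rfl
  · exact Or.inr (Or.inl rfl)
  · exact Or.inr (Or.inr rfl)

variable {F : Fam 3 J} {A : F.Ω → Prop} {σ : Fin 3 → Fin 3} {w q V H X : ℕ} {D : ℝ}
  {a s t a' s' t' : F.Ω → ℝ}

/-- The label of the pairs is a function of the line and the window. -/
theorem lab_slam (hF : Frg F A w V H D a s t a' s' t') (ω ω' : F.Ω)
    (h : slam F w ω = slam F w ω') :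
    (blk F σ w q V H X a s t ω, ctx F σ w q V H a s t ω) =
      (blk F σ w q V H X a s t ω', ctx F σ w q V H a s t ω') := by
  obtain ⟨h1, h2⟩ := ctx_slam (σ := σ) (q := q) (X := X) hF h
  rw [h1, h2]

/-- Frames which agree in the units of the context agree (no knowledge of the direction). -/
theorem agr_of_sc0 {V H R k k₀ : ℕ} {D : ℝ} {y y' z : Pln} (hR : R = H + V)
    (hk : k₀ ≤ R + k) (hD0 : 1 ≤ D) (hD : 2 * D ≤ 2 ^ k₀) (h' : Nfr V H R D y' z)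
    (h0 : |Sc0 R y z - Sc0 R y' z| ≤ 1 / 2 ^ k) (h1 : |Sc1 H y z - Sc1 H y' z| ≤ 1 / 2 ^ k) :
    |y.s - y'.s| ≤ 1 / 2 ^ (H + k) ∧ |Ae y.c y.s y'.c y'.s y'.e| ≤ 1 / 2 ^ (R + k - k₀) := by
  have a0 := scaled_le h0
  have a1 := scaled_le h1
  have b1 : |y.s - y'.s| ≤ 1 / 2 ^ (H + k) := by
    have e1 : y.s - y'.s = (y.s - z.s) - (y'.s - z.s) := by ring
    rw [e1]
    refine a1.trans (le_of_eq ?_)
    rw [pow_add, div_div, mul_comm]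
  refine ⟨b1, ?_⟩
  have e1 : Ae y.c y.s y'.c y'.s y'.e =
      (Ae y.c y.s z.c z.s z.e - Ae y'.c y'.s z.c z.s z.e) + (y.s - y'.s) * (y'.e - z.e) := by
    unfold Ae
    ring
  rw [e1]
  refine (abs_add_le _ _).trans ?_
  rw [abs_mul]
  have h3 : |y.s - y'.s| * |y'.e - z.e| ≤ 1 / 2 ^ (H + k) * (D / 2 ^ V) :=
    mul_le_mul b1 h'.e (abs_nonneg _) (by positivity)
  refine (add_le_add a0 h3).trans ?_
  have e3 : (1 : ℝ) / 2 ^ k / 2 ^ R + 1 / 2 ^ (H + k) * (D / 2 ^ V) = (1 + D) / 2 ^ (R + k) := by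
    rw [hR]
    simp only [pow_add]
    field_simp
  rw [e3, div_le_div_iff₀ (by positivity) (by positivity)]
  have e2 : (2 : ℝ) ^ (R + k) = 2 ^ k₀ * 2 ^ (R + k - k₀) := by
    rw [← pow_add]
    congr 1
    omega
  rw [e2, one_mul]
  have : (0 : ℝ) < 2 ^ (R + k - k₀) := by positivity
  nlinarith only [hD0, this, hD]

/-- **(H6)** in the contexts. -/
theorem h6_frg {Qt : ℕ} (hQJ : Qt ≤ J) (hσ : Function.Injective σ) {W lam P P2 k k₀ : ℕ}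
    {C κ δ : ℝ} (hC : 1 ≤ C) (hl : IsLaw (Pool.Agent.H49.Ent.cond F.p A True))
    (hF : Frg F A w V H D a s t a' s' t')
    {y : F.Ω → Pln} (hy : ∀ ω, A ω → Vpl (y ω) (a' ω) (s' ω) (t' ω))
    (hI : ∀ ω, A ω → Inc (σ 0) (σ 1) (σ 2) W lam P C (y ω) (F.t ω) (F.x ω) (F.d ω))
    {φ : (Fin 3 → ℤ) × (ℕ × F.ζ) → Pln} (hφ : ∀ ω, A ω → y ω = φ (ptq F Qt ω))
    (hD0 : 1 ≤ D) (hD : 2 * D ≤ 2 ^ k₀) (h1 : V ≤ lam + k₀) (h2 : w + V ≤ Qt)
    (h3 : k₀ + 3 ≤ V + H) (h4 : P2 + k₀ + 3 ≤ w + (V + H + k))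
    (h5 : W + P2 ≤ w + P) (h6 : P2 ≤ Qt)
    (hB : ∀ B : F.Ω → Prop, Sub B A → Real.exp (-(κ + Real.log 9 + KC C)) * Pe F.p A ≤ Pe F.p B →
      ¬ LABq F Qt (σ 0) (σ 1) (σ 2) w 0 P2 2 B) (hδ : δ ≤ 1 / 2 ^ k) :
    Pool.KAF.Pr (dbl (Pool.Agent.H49.Ent.cond F.p A True)
        (fun ω => (blk F σ w q V H X a s t ω, ctx F σ w q V H a s t ω)))
      {x | ∀ j, |SS V H a s t s' t' j x.1 - SS V H a s t s' t' j x.2| < δ} ≤ Real.exp (-κ) := by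
  have hA : ∀ ω, 0 < Pool.Agent.H49.Ent.cond F.p A True ω → A ω := fun ω hω => by
    have := ((cond_pos_iff F.isLaw.nonneg A True ω).1 hω).2
    simpa using this
  have hl9 : 0 ≤ Real.log 9 := Real.log_nonneg (by norm_num)
  have tr : ∀ x : F.Ω × F.Ω, (blk F σ w q V H X a s t x.1, ctx F σ w q V H a s t x.1) =
      (blk F σ w q V H X a s t x.2, ctx F σ w q V H a s t x.2) →
      0 < Pool.Agent.H49.Ent.cond F.p A True x.1 → 0 < Pool.Agent.H49.Ent.cond F.p A True x.2 →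
      x ∈ {x : F.Ω × F.Ω | ∀ j, |SS V H a s t s' t' j x.1 - SS V H a s t s' t' j x.2| < δ} →
      ∃ z : Pln, Nfr V H (V + H) D (y x.1) z ∧ Nfr V H (V + H) D (y x.2) z ∧
        |Sc0 (V + H) (y x.1) z - Sc0 (V + H) (y x.2) z| ≤ 1 / 2 ^ k ∧
        |Sc1 H (y x.1) z - Sc1 H (y x.2) z| ≤ 1 / 2 ^ k := by
    rintro x hg hx1 hx2 hx3
    have k1 := hA _ hx1
    have k2 := hA _ hx2
    have hb : ctx F σ w q V H a s t x.1 = ctx F σ w q V H a s t x.2 :=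
      (Prod.ext_iff.mp hg).2
    obtain ⟨f1, f2, f3⟩ := ctx_frm hσ hb
    have n1 := nfr_of_frg hF hy k1
    have n2 := nfr_of_frg hF hy k2
    have q1 : |SS V H a s t s' t' 0 x.1 - SS V H a s t s' t' 0 x.2| < δ := hx3 0
    have q2 : |SS V H a s t s' t' 1 x.1 - SS V H a s t s' t' 1 x.2| < δ := hx3 1
    rw [← abs_neg, neg_sub', ← sc0_frg (hy _ k1), ← sc0_frg (hy _ k2)] at q1
    rw [← abs_neg, neg_sub', ← sc1_frg (hy _ k1), ← sc1_frg (hy _ k2)] at q2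
    rw [f1, f2, f3] at n1 q1 q2
    exact ⟨_, n1, n2, q1.le.trans hδ, q2.le.trans hδ⟩
  by_cases hk : k₀ ≤ V
  · refine Pr_dbl_self hl ?_ (h6b F hQJ (sig_all hσ) (v := w) (W := W) (lam := lam) (P := P)
      (l2 := V - k₀) (sg := H + k) (ag := V + H + k - k₀) (P2 := P2) (κ := κ) hC hl hI hφ
      (lab_slam hF) (by omega) (by omega) (by omega) (by omega) h5 h6 ?_)
    · intro x hg hx1 hx2 hx3
      obtain ⟨z, n1, n2, q1, q2⟩ := tr x hg hx1 hx2 hx3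
      exact agr_of_sc (by omega) hk hD0 hD n1 n2 q1 q2
    · intro B hBA hPB hLB
      refine hB B hBA (le_trans ?_ hPB) ?_
      · refine mul_le_mul_of_nonneg_right (Real.exp_le_exp.2 ?_) (Pe_nonneg F.isLaw A)
        linarith only [hl9]
      obtain ⟨y', q1, q2, q3⟩ := hLB
      refine ⟨y', fun ω hω => ?_, q2, q3⟩
      have q := q1 ω hω
      refine ⟨q.e_le, q.c_le, q.s_le, q.pe, q.pu.trans ?_, q.pn, q.ve, q.vu.trans ?_, q.vn⟩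
      · exact div_le_div_of_nonneg_left (by norm_num) (by positivity)
          (pow_le_pow_right₀ (by norm_num) (by omega))
      · exact div_le_div_of_nonneg_left (by norm_num) (by positivity)
          (pow_le_pow_right₀ (by norm_num) (by omega))
  · refine Pr_dbl_self hl ?_ (h6b0 F hQJ (sig_all hσ) (v := w) (W := W) (lam := lam) (P := P)
      (sg := H + k) (ag := V + H + k - k₀) (P2 := P2) (κ := κ) hC hl hI hφ
      (lab_slam hF) (by omega) (by omega) (by omega) (by omega) h5 h6 hB)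
    intro x hg hx1 hx2 hx3
    obtain ⟨z, n1, n2, q1, q2⟩ := tr x hg hx1 hx2 hx3
    refine ⟨?_, agr_of_sc0 (by omega) (by omega) hD0 hD n2 q1 q2⟩
    have e1 := (hI _ (hA _ hx1)).e_le
    have e2 := (hI _ (hA _ hx2)).e_le
    exact (abs_sub _ _).trans (by linarith only [e1, e2])

/-- **(H7)** in the contexts. -/
theorem h7_frg {Qt : ℕ} (hσ : Function.Injective σ) {W lam P : ℕ}
    {C κ δ r ρ : ℝ} (hC : 0 ≤ C) (hl : IsLaw (Pool.Agent.H49.Ent.cond F.p A True))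
    (hF : Frg F A w V H D a s t a' s' t')
    {y : F.Ω → Pln} (hy : ∀ ω, A ω → Vpl (y ω) (a' ω) (s' ω) (t' ω))
    (hI : ∀ ω, A ω → Inc (σ 0) (σ 1) (σ 2) W lam P C (y ω) (F.t ω) (F.x ω) (F.d ω))
    {φ : (Fin 3 → ℤ) × (ℕ × F.ζ) → Pln} (hφ : ∀ ω, A ω → y ω = φ (ptq F Qt ω))
    (hD0 : 0 ≤ D) (hρ : 2 * D / 2 ^ (V + H) + 2 * D * D / 2 ^ (V + H) ≤ ρ)
    (hr : 5 * C / 2 ^ lam + C * 2 ^ W / 2 ^ P ≤ r)
    (hB : ∀ B : F.Ω → Prop, Sub B A → Real.exp (-κ) * Pe F.p A ≤ Pe F.p B →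
      ¬ RotU (σ 0) r (5 * ρ) (ptq F Qt) (slam F w) F.d B) (hδ : δ ≤ ρ * 2 ^ V) :
    Pool.KAF.Pr (dbl (Pool.Agent.H49.Ent.cond F.p A True)
        (fun ω => (blk F σ w q V H X a s t ω, ctx F σ w q V H a s t ω)))
      {x | |EE V a a' x.1 - EE V a a' x.2| < δ} ≤ Real.exp (-κ) := by
  have hA : ∀ ω, 0 < Pool.Agent.H49.Ent.cond F.p A True ω → A ω := fun ω hω => by
    have := ((cond_pos_iff F.isLaw.nonneg A True ω).1 hω).2
    simpa using this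
  refine Pr_dbl_self hl ?_ (h7b F (sig_all hσ) (v := w) (κ := κ) hC hl hI hφ (lab_slam hF) hr hB)
  rintro x hg hx1 hx2 hx3
  have k1 := hA _ hx1
  have k2 := hA _ hx2
  have hb : ctx F σ w q V H a s t x.1 = ctx F σ w q V H a s t x.2 := (Prod.ext_iff.mp hg).2
  obtain ⟨f1, f2, f3⟩ := ctx_frm hσ hb
  have n1 := nfr_of_frg hF hy k1
  have n2 := nfr_of_frg hF hy k2
  have q1 : |EE V a a' x.1 - EE V a a' x.2| < δ := hx3
  rw [← sce_frg (s := s) (t := t) (hy _ k1), ← sce_frg (s := s) (t := t) (hy _ k2)] at q1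
  rw [f1, f2, f3] at n1 q1
  refine ⟨?_, ae_of_nfr n1 n2 hD0 ?_⟩
  · have h3 : |((y x.1).e - (fpl (a x.2) (s x.2) (t x.2)).e) -
        ((y x.2).e - (fpl (a x.2) (s x.2) (t x.2)).e)| ≤ δ / 2 ^ V := scaled_le q1.le
    have e2 : (y x.1).e - (y x.2).e = ((y x.1).e - (fpl (a x.2) (s x.2) (t x.2)).e) -
        ((y x.2).e - (fpl (a x.2) (s x.2) (t x.2)).e) := by ring
    rw [e2]
    refine h3.trans ?_
    rw [div_le_iff₀ (by positivity)]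
    exact hδ
  · rw [add_comm H V]
    exact hρ

end Box

/-! ### Classes -/

open Pool.S6C

/-- **(H6) at class level.** `G` is the thickness of the planks of the windows `w`, visible at the
row `Q`; the context has `V + H ≥ (G - w - h) J` digits, `X ≥ δ J - 1`, and the planks on finer
windows have `(G - w + x₀ δ / 2) J` digits. -/
theorem h6_loc {S : PCl 3} {i0 : Fin 3} {Q : ℝ} (hQ : Q ≤ 1) {w : ℚ} (hw : 0 ≤ w) {G : ℝ}
    (hG : PNum S (capS Q (qTh i0 Q w)) G) {x₀ δ h : ℝ} (hx₀ : 0 < x₀) (hδ : 0 < δ)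
    (hh0 : 0 ≤ h) (hh : 4 * h ≤ x₀ * δ) (hGx : G + x₀ * δ / 2 ≤ Q) (hGw : w + h < G) {C D : ℝ}
    (hC : 1 ≤ C) (hD : 1 ≤ D) :
    ∃ c > 0, ∃ J₁ : ℕ, ∀ J ≥ J₁, ∀ (F : Fam 3 J) (A : F.Ω → Prop), S.St c J F A →
      IsLaw (Pool.Agent.H49.Ent.cond F.p A True) → ∀ σ : Fin 3 → Fin 3, Function.Injective σ →
      σ 0 = i0 → ∀ (q V H X W lam P : ℕ) (a s t a' s' t' : F.Ω → ℝ) (y : F.Ω → Pln),
      Frg F A ⌊(w : ℝ) * J⌋₊ V H D a s t a' s' t' →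
      (∀ ω, A ω → Vpl (y ω) (a' ω) (s' ω) (t' ω)) →
      (∀ ω, A ω → Inc (σ 0) (σ 1) (σ 2) W lam P C (y ω) (F.t ω) (F.x ω) (F.d ω)) →
      (∃ φ : (Fin 3 → ℤ) × (ℕ × F.ζ) → Pln, ∀ ω, A ω → y ω = φ (ptq F ⌊Q * J⌋₊ ω)) →
      δ * J - 1 ≤ X → (G - w - h) * J ≤ ((V + H : ℕ) : ℝ) → V ≤ lam →
      ⌊(w : ℝ) * J⌋₊ + V ≤ ⌊Q * J⌋₊ → (W : ℝ) + (G + x₀ * δ / 2 - w) * J + 1 ≤ P →
      Pool.KAF.Pr (dbl (Pool.Agent.H49.Ent.cond F.p A True)
          (fun ω => (blk F σ ⌊(w : ℝ) * J⌋₊ q V H X a s t ω,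
            ctx F σ ⌊(w : ℝ) * J⌋₊ q V H a s t ω)))
        {x | ∀ j, |SS V H a s t s' t' j x.1 - SS V H a s t s' t' j x.2| <
          (2 : ℝ) ^ (-(x₀ * X))} ≤ Real.exp (-(c * J)) := by
  have hx : 0 < x₀ * δ / 2 := by positivity
  obtain ⟨c, hc, J₁, hn⟩ := num_no (qTh_hered i0 Q w) hG hx
  obtain ⟨J₂, hJ₂⟩ := exists_nat_gt ((Real.log 9 + KC C) / (c / 2))
  obtain ⟨k₀, hk₀⟩ := pow_unbounded_of_one_lt (2 * D) (by norm_num : (1 : ℝ) < 2)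
  obtain ⟨J₃, hJ₃⟩ := exists_nat_gt ((k₀ + x₀ + 7) / (x₀ * δ / 4))
  obtain ⟨J₄, hJ₄⟩ := exists_nat_gt ((k₀ + 3) / (G - w - h))
  refine ⟨c / 2, half_pos hc, max (max J₁ J₂) (max J₃ J₄), ?_⟩
  intro J hJ F A hS hl σ hσ hσ0 q V H X W lam P a s t a' s' t' y hF hy hI hvis hX hVH h1 h2 h5
  obtain ⟨φ, hφ⟩ := hvis
  have hJ1 : J₁ ≤ J := ((le_max_left _ _).trans (le_max_left _ _)).trans hJ
  have hJ2 : (J₂ : ℝ) ≤ J := by
    exact_mod_cast ((le_max_right _ _).trans (le_max_left _ _)).trans hJ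
  have hJ3 : (J₃ : ℝ) ≤ J := by
    exact_mod_cast ((le_max_left _ _).trans (le_max_right _ _)).trans hJ
  have hJ4 : (J₄ : ℝ) ≤ J := by
    exact_mod_cast ((le_max_right _ _).trans (le_max_right _ _)).trans hJ
  have hKC : Real.log 9 + KC C ≤ c / 2 * J := by
    have := hJ₂.trans_le hJ2
    rw [div_lt_iff₀ (half_pos hc)] at this
    linarith only [this]
  have hJ0 : (0 : ℝ) ≤ J := Nat.cast_nonneg J
  have g3 : (k₀ : ℝ) + x₀ + 7 < x₀ * δ / 4 * J := by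
    have := hJ₃.trans_le hJ3
    rw [div_lt_iff₀ (by positivity)] at this
    linarith only [this]
  have g4 : (k₀ : ℝ) + 3 < (G - w - h) * J := by
    have := hJ₄.trans_le hJ4
    rw [div_lt_iff₀ (by linarith only [hGw])] at this
    linarith only [this]
  have hQJ : ⌊Q * J⌋₊ ≤ J := by
    refine Nat.floor_le_of_le ?_
    calc Q * J ≤ 1 * J := mul_le_mul_of_nonneg_right hQ hJ0
      _ = J := one_mul _
  exact by
   have hw0 : (0 : ℝ) ≤ w := by exact_mod_cast hw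
   have f1 := Nat.floor_le (mul_nonneg hw0 hJ0)
   have f2 := Nat.lt_floor_add_one ((w : ℝ) * J)
   have hx0X : 0 ≤ x₀ * X := by positivity
   have f3 := Nat.floor_le hx0X
   have f4 := Nat.lt_floor_add_one (x₀ * X)
   have hhG : h ≤ x₀ * δ / 4 := by linarith only [hh]
   have hG0 : 0 ≤ (G + x₀ * δ / 2) * J := mul_nonneg (by linarith only [hh0, hGw, hx, hw0]) hJ0
   have f5 := Nat.floor_le hG0
   have hX2 : x₀ * (δ * J - 1) ≤ x₀ * X := mul_le_mul_of_nonneg_left hX hx₀.le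
   have hhJ : h * J ≤ x₀ * δ / 4 * J := mul_le_mul_of_nonneg_right hhG hJ0
   have c1 : ⌊(G + x₀ * δ / 2) * J⌋₊ ≤ ⌊Q * J⌋₊ :=
     Nat.floor_le_floor (mul_le_mul_of_nonneg_right hGx hJ0)
   have c2 : k₀ + 3 ≤ V + H := by
     have : ((k₀ + 3 : ℕ) : ℝ) ≤ ((V + H : ℕ) : ℝ) := by
       push_cast at hVH ⊢
       linarith only [g4, hVH]
     exact_mod_cast this
   have c3 : ⌊(G + x₀ * δ / 2) * J⌋₊ + k₀ + 3 ≤ ⌊(w : ℝ) * J⌋₊ + (V + H + ⌊x₀ * X⌋₊) := by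
     have : ((⌊(G + x₀ * δ / 2) * J⌋₊ + k₀ + 3 : ℕ) : ℝ) ≤
         ((⌊(w : ℝ) * J⌋₊ + (V + H + ⌊x₀ * X⌋₊) : ℕ) : ℝ) := by
       push_cast at hVH ⊢
       ring_nf at hVH f5 hX2 hhJ g3 f1 f2 ⊢
       linarith only [hQ, hh0, hGx, hGw, hx, hw0, f4, hVH, f5, hX2, hhJ, g3, f2]
     exact_mod_cast this
   have c4 : W + ⌊(G + x₀ * δ / 2) * J⌋₊ ≤ ⌊(w : ℝ) * J⌋₊ + P := by
     have : ((W + ⌊(G + x₀ * δ / 2) * J⌋₊ : ℕ) : ℝ) ≤ ((⌊(w : ℝ) * J⌋₊ + P : ℕ) : ℝ) := by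
       push_cast
       ring_nf at h5 f5 f2 ⊢
       linarith only [h5, f5, f2]
     exact_mod_cast this
   exact by
    have c5 : (2 : ℝ) ^ (-(x₀ * X)) ≤ 1 / 2 ^ ⌊x₀ * X⌋₊ := by
      rw [Real.rpow_neg (by norm_num), ← one_div]
      refine div_le_div_of_nonneg_left (by norm_num) (by positivity) ?_
      rw [← Real.rpow_natCast]
      exact Real.rpow_le_rpow_of_exponent_le (by norm_num) f3
    refine h6_frg (F := F) hQJ hσ (κ := c / 2 * J) (P2 := ⌊(G + x₀ * δ / 2) * J⌋₊)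
      (k := ⌊x₀ * X⌋₊) (k₀ := k₀) hC hl hF hy hI hφ hD hk₀.le (by omega) h2 c2 c3 c4 c1 ?_ c5
    intro B hBA hPB hLB
    refine hn J hJ1 F A (S.mono (by linarith only [hc]) hS) B hBA ?_ (Or.inr ⟨hGx, σ 1, σ 2, ?_, ?_⟩)
    · refine le_trans ?_ hPB
      refine mul_le_mul_of_nonneg_right (Real.exp_le_exp.2 ?_) (Pe_nonneg F.isLaw A)
      linarith only [hKC]
    · rw [← hσ0]
      exact sig_all hσ
    · rw [← hσ0]
      exact hLB

/-- **(H7) at class level.** `ρ₀` is the constancy of the directions on the windows `w`, visible at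
the row `Q`; the context has `V ≥ (ρ₀ - h) J` digits of the direction. -/
theorem h7_loc {S : PCl 3} {i0 : Fin 3} {Q : ℝ} {w : ℚ} {ρ₀ : ℝ} (hρ0 : 0 ≤ ρ₀)
    (hG : PNum S (capS 1 (qRot i0 Q w)) ρ₀) {x₀ δ h h₂ : ℝ} (hx₀ : 0 < x₀) (hδ : 0 < δ)
    (hh : 4 * h ≤ x₀ * δ) (hh₂ : 0 < h₂) (hx1 : ρ₀ + x₀ * δ / 2 ≤ 1)
    {C D : ℝ} (hC : 0 < C) (hD : 0 < D) :
    ∃ c > 0, ∃ J₁ : ℕ, ∀ J ≥ J₁, ∀ (F : Fam 3 J) (A : F.Ω → Prop), S.St c J F A →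
      IsLaw (Pool.Agent.H49.Ent.cond F.p A True) → ∀ σ : Fin 3 → Fin 3, Function.Injective σ →
      σ 0 = i0 → ∀ (q V H X W lam P : ℕ) (a s t a' s' t' : F.Ω → ℝ) (y : F.Ω → Pln),
      Frg F A ⌊(w : ℝ) * J⌋₊ V H D a s t a' s' t' →
      (∀ ω, A ω → Vpl (y ω) (a' ω) (s' ω) (t' ω)) →
      (∀ ω, A ω → Inc (σ 0) (σ 1) (σ 2) W lam P C (y ω) (F.t ω) (F.x ω) (F.d ω)) →
      (∃ φ : (Fin 3 → ℤ) × (ℕ × F.ζ) → Pln, ∀ ω, A ω → y ω = φ (ptq F ⌊Q * J⌋₊ ω)) →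
      δ * J - 1 ≤ X → (ρ₀ - h) * J ≤ V → x₀ * X + h₂ * J ≤ H →
      (ρ₀ + x₀ * δ / 2 + h₂) * J ≤ lam → W + (ρ₀ + x₀ * δ / 2 + h₂) * J ≤ P →
      Pool.KAF.Pr (dbl (Pool.Agent.H49.Ent.cond F.p A True)
          (fun ω => (blk F σ ⌊(w : ℝ) * J⌋₊ q V H X a s t ω,
            ctx F σ ⌊(w : ℝ) * J⌋₊ q V H a s t ω)))
        {x | |EE V a a' x.1 - EE V a a' x.2| < (2 : ℝ) ^ (-(x₀ * X))} ≤ Real.exp (-(c * J)) := by
  have hx : 0 < x₀ * δ / 2 := by positivity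
  obtain ⟨c, hc, J₁, hn⟩ := num_no (qRot_hered i0 Q w) hG hx
  obtain ⟨k₀, hk₀⟩ := pow_unbounded_of_one_lt (6 * C + 2 * D + 2 * D * D)
    (by norm_num : (1 : ℝ) < 2)
  obtain ⟨J₂, hJ₂⟩ := exists_nat_gt (k₀ / h₂)
  obtain ⟨J₃, hJ₃⟩ := exists_nat_gt ((x₀ + 3) / (x₀ * δ / 4))
  refine ⟨c, hc, max J₁ (max J₂ J₃), ?_⟩
  intro J hJ F A hS hl σ hσ hσ0 q V H X W lam P a s t a' s' t' y hF hy hI hvis hX hV hH h1 h2
  obtain ⟨φ, hφ⟩ := hvis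
  have hJ1 : J₁ ≤ J := (le_max_left _ _).trans hJ
  have hJ2 : (J₂ : ℝ) ≤ J := by
    exact_mod_cast ((le_max_left _ _).trans (le_max_right _ _)).trans hJ
  have hJ3 : (J₃ : ℝ) ≤ J := by
    exact_mod_cast ((le_max_right _ _).trans (le_max_right _ _)).trans hJ
  have hJ0 : (0 : ℝ) ≤ J := Nat.cast_nonneg J
  have g2 : (k₀ : ℝ) < h₂ * J := by
    have := hJ₂.trans_le hJ2
    rw [div_lt_iff₀ hh₂] at this
    linarith only [this]
  have g3 : x₀ + 3 < x₀ * δ / 4 * J := by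
    have := hJ₃.trans_le hJ3
    rw [div_lt_iff₀ (by positivity)] at this
    linarith only [this]
  have hhG : h ≤ x₀ * δ / 4 := by linarith only [hh]
  have hX2 : x₀ * (δ * J - 1) ≤ x₀ * X := mul_le_mul_of_nonneg_left hX hx₀.le
  have hhJ : h * J ≤ x₀ * δ / 4 * J := mul_le_mul_of_nonneg_right hhG hJ0
  have t2 : (0 : ℝ) < 2 := by norm_num
  have t1 : (1 : ℝ) ≤ 2 := by norm_num
  have hG0 : 0 ≤ (ρ₀ + x₀ * δ / 2) * J := mul_nonneg (by linarith only [hρ0, hx]) hJ0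
  have f5 := Nat.floor_le hG0
  exact by
   have hDD : 0 < D * D := by positivity
   have low : ∀ n m : ℕ, (m : ℝ) + (ρ₀ + x₀ * δ / 2 + h₂) * J ≤ n →
       6 * C * 2 ^ m / 2 ^ n ≤ 1 / 2 ^ ⌊(ρ₀ + x₀ * δ / 2) * J⌋₊ := by
     intro n m hn
     have hfl : ⌊(ρ₀ + x₀ * δ / 2) * J⌋₊ + k₀ + m ≤ n := by
       have : ((⌊(ρ₀ + x₀ * δ / 2) * J⌋₊ + k₀ + m : ℕ) : ℝ) ≤ n := by
         push_cast
         linarith only [g2, f5, hn]
       exact_mod_cast this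
     rw [div_le_div_iff₀ (by positivity) (by positivity), one_mul]
     have e1 : (2 : ℝ) ^ (⌊(ρ₀ + x₀ * δ / 2) * J⌋₊ + k₀ + m) ≤ 2 ^ n :=
       pow_le_pow_right₀ t1 hfl
     refine le_trans ?_ e1
     rw [pow_add, pow_add]
     have e2 : 6 * C ≤ 2 ^ k₀ := by linarith only [hD, hk₀, hDD]
     have e3 : (0 : ℝ) < 2 ^ m * 2 ^ ⌊(ρ₀ + x₀ * δ / 2) * J⌋₊ := by positivity
     calc 6 * C * 2 ^ m * 2 ^ ⌊(ρ₀ + x₀ * δ / 2) * J⌋₊
         = 6 * C * (2 ^ m * 2 ^ ⌊(ρ₀ + x₀ * δ / 2) * J⌋₊) := by ring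
       _ ≤ 2 ^ k₀ * (2 ^ m * 2 ^ ⌊(ρ₀ + x₀ * δ / 2) * J⌋₊) :=
         mul_le_mul_of_nonneg_right e2 e3.le
       _ = _ := by ring
   have hr : 5 * C / 2 ^ lam + C * 2 ^ W / 2 ^ P ≤ 1 / 2 ^ ⌊(ρ₀ + x₀ * δ / 2) * J⌋₊ := by
     have l1 := low lam 0 (by push_cast; linarith only [h1])
     have l2 := low P W (by linarith only [h2])
     rw [pow_zero, mul_one] at l1
     have q1 : 5 * C / 2 ^ lam = 5 / 6 * (6 * C / 2 ^ lam) := by ring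
     have q2 : C * 2 ^ W / 2 ^ P = 1 / 6 * (6 * C * 2 ^ W / 2 ^ P) := by ring
     rw [q1, q2]
     linarith only [l1, l2]
   -- the precision of the directions
   exact by
    have hδV : (2 : ℝ) ^ (-(x₀ * X)) ≤ 2 ^ (-(x₀ * X)) / 2 ^ V * 2 ^ V := by
      rw [div_mul_cancel₀ _ (by positivity)]
    have hρD : 2 * D / 2 ^ (V + H) + 2 * D * D / 2 ^ (V + H) ≤ (2 : ℝ) ^ (-(x₀ * X)) / 2 ^ V := by
      rw [← add_div, pow_add, ← div_div, div_right_comm]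
      refine div_le_div_of_nonneg_right ?_ (by positivity)
      rw [div_le_iff₀ (by positivity)]
      have e1 : 2 * D + 2 * D * D ≤ (2 : ℝ) ^ (k₀ : ℝ) := by
        rw [Real.rpow_natCast]
        linarith only [hC, hk₀]
      refine e1.trans ?_
      rw [← Real.rpow_natCast 2 H, ← Real.rpow_add t2]
      exact Real.rpow_le_rpow_of_exponent_le t1 (by linarith only [hH, g2])
    have h5ρ : 5 * ((2 : ℝ) ^ (-(x₀ * X)) / 2 ^ V) ≤ 1 / 2 ^ ⌊(ρ₀ + x₀ * δ / 2) * J⌋₊ := by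
      rw [← Real.rpow_natCast 2 V, ← Real.rpow_natCast 2 ⌊(ρ₀ + x₀ * δ / 2) * J⌋₊, ← Real.rpow_sub t2,
        one_div, ← Real.rpow_neg t2.le]
      have e1 : (5 : ℝ) ≤ 2 ^ (3 : ℝ) := by norm_num
      refine (mul_le_mul_of_nonneg_right e1 (Real.rpow_nonneg t2.le _)).trans ?_
      rw [← Real.rpow_add t2]
      refine Real.rpow_le_rpow_of_exponent_le t1 ?_
      ring_nf at hV f5 hX2 hhJ g3 ⊢
      linarith only [hV, f5, hX2, hhJ, g3]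
    refine h7_frg (F := F) hσ (κ := c * J) hC.le hl hF hy hI hφ hD.le hρD hr ?_ hδV
    intro B hBA hPB hLB
    refine hn J hJ1 F A hS B hBA hPB (Or.inr ⟨hx1, ?_⟩)
    rw [← hσ0]
    exact hLB.mono le_rfl h5ρ

end Pool.S6N
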