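import Pool.Agent.H9.S6.H67F

/-!
# (H6) and (H7) for exact frames and directions, on events

The exact frame of the generalised time is a visible plank up to errors; the exact direction is
the direction of the fan at the exact point.
-/

set_option autoImplicit false

namespace Pool.S6N

open Finset Real
open Pool.Agent.H49.Ent Pool.Agent.H32.Dense Pool.STK Pool.KA Pool.KSAT Pool.K3 Pool.K2S Pool.PB
open Pool.KS6

/-- The plank `y` is near the exact frame, up to `k` digits after the frame of the context. -/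
structure Nex (V H k : ℕ) (D : ℝ) (y : Pln) (a a' s' t' : ℝ) : Prop where
  e : |a' - y.e| ≤ D / 2 ^ V
  s : |s' + y.s| ≤ D / 2 ^ (H + k)
  t : |t' + y.c + (s' + y.s) * a| ≤ D / 2 ^ (V + H + k)

section Lab

variable {J : ℕ}

/-- **(H7)** for the directions of the fans and any label which is a function of the line and the
window and contains the frame `s`, `t` of the normal form. -/
theorem h7_lab (F : Fam 3 J) {Qt : ℕ} {i0 iu iN : Fin 3}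
    (hi : ∀ j : Fin 3, j = i0 ∨ j = iu ∨ j = iN) {v : ℕ} {κ r ρ Bs : ℝ} {A : F.Ω → Prop}
    (hl : IsLaw (Pool.Agent.H49.Ent.cond F.p A True)) {al be nu ga : F.Ω → ℝ}
    (hfp : ∃ φ : (Fin 3 → ℤ) × (ℕ × F.ζ) → ℝ × ℝ × ℝ × ℝ,
      ∀ ω, A ω → (al ω, be ω, nu ω, ga ω) = φ (ptq F Qt ω))
    (hu : ∀ ω, A ω → |F.d ω iu - al ω * F.d ω i0 - nu ω| ≤ r)
    (hN : ∀ ω, A ω → |F.d ω iN - be ω * F.d ω i0 - ga ω| ≤ r)
    {T : Type} {b : F.Ω → T} (hb : ∀ ω ω', slam F v ω = slam F v ω' → b ω = b ω')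
    {s t : F.Ω → ℝ} (hst : ∀ ω ω', b ω = b ω' → s ω = s ω' ∧ t ω = t ω') (hBs : 0 ≤ Bs)
    (hs : ∀ ω, A ω → |s ω| ≤ Bs) (hβ : ∀ ω, A ω → |be ω - (t ω + s ω * al ω)| ≤ ρ) (hr : 0 ≤ r)
    (hB : ∀ B : F.Ω → Prop, Sub B A → Real.exp (-κ) * Pe F.p A ≤ Pe F.p B →
      ¬ RotU i0 r ((1 + Bs) * ρ) (ptq F Qt) (slam F v) F.d B) :
    Pe (cpy (Pool.Agent.H49.Ent.cond F.p A True) b) (fun x => |al x.1 - al x.2| ≤ ρ) ≤
      Real.exp (-κ) := by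
  classical
  have hp := F.isLaw
  have hA := pos_of_cond hp hl
  by_contra hcon
  push Not at hcon
  obtain ⟨ζ₀, hζ₀⟩ := exists_fn_of_cpy hl al b (fun x y : ℝ => |x - y| ≤ ρ) hcon.le
  obtain ⟨st, hst'⟩ := lift_lab (g := b) (b := fun ω => (s ω, t ω))
    (fun ω ω' h => by rw [(hst ω ω' h).1, (hst ω ω' h).2]) id (0, 0)
  obtain ⟨ζ, hζ⟩ := lift_lab hb (fun l (j : Fin 3) => if j = i0 then (1 : ℝ) else
    if j = iu then ζ₀ l else (st l).2 + (st l).1 * ζ₀ l) (fun _ => 0)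
  obtain ⟨φ, hφ⟩ := hfp
  rw [Pe_cond, le_div_iff₀ hA] at hζ₀
  refine hB _ (fun ω hω => hω.1) hζ₀ ⟨
    fun u j => if j = i0 then 1 else if j = iu then (φ u).1 else (φ u).2.1,
    fun u j => if j = i0 then 0 else if j = iu then (φ u).2.2.1 else (φ u).2.2.2, ζ, ?_, ?_⟩
  · rintro ω ⟨hω, -⟩ j
    beta_reduce
    rw [← hφ ω hω]
    by_cases j0 : j = i0
    · subst j0
      simp only [if_true]
      rw [one_mul, sub_self, sub_zero, abs_zero]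
      exact hr
    by_cases j1 : j = iu
    · subst j1
      rw [if_neg j0, if_neg j0, if_pos rfl, if_pos rfl]
      exact hu ω hω
    · have j2 : j = iN := by
        rcases hi j with h | h | h
        · exact (j0 h).elim
        · exact (j1 h).elim
        · exact h
      subst j2
      rw [if_neg j0, if_neg j0, if_neg j1, if_neg j1]
      exact hN ω hω
  · rintro ω ⟨hω, hω2⟩ j
    beta_reduce
    rw [← hφ ω hω, hζ ω, hst' ω]
    beta_reduce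
    have k1 : |al ω - ζ₀ (b ω)| ≤ ρ := hω2
    have hρ : 0 ≤ ρ := (abs_nonneg _).trans k1
    have h1 : ρ ≤ (1 + Bs) * ρ := by nlinarith only [hBs, hρ]
    by_cases j0 : j = i0
    · subst j0
      simp only [if_true]
      rw [sub_self, abs_zero]
      linarith only [hρ, h1]
    by_cases j1 : j = iu
    · subst j1
      rw [if_neg j0, if_neg j0, if_pos rfl, if_pos rfl]
      exact k1.trans h1
    · rw [if_neg j0, if_neg j0, if_neg j1, if_neg j1]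
      show |be ω - (t ω + s ω * ζ₀ (b ω))| ≤ (1 + Bs) * ρ
      have e1 : be ω - (t ω + s ω * ζ₀ (b ω)) =
          (be ω - (t ω + s ω * al ω)) + s ω * (al ω - ζ₀ (b ω)) := by ring
      rw [e1]
      refine (abs_add_le _ _).trans ?_
      rw [abs_mul]
      have h7 : |s ω| * |al ω - ζ₀ (b ω)| ≤ Bs * ρ := mul_le_mul (hs ω hω) k1 (abs_nonneg _) hBs
      have h8 := hβ ω hω
      linarith only [h7, h8]

end Lab

section Box

variable {J : ℕ} {F : Fam 3 J} {A : F.Ω → Prop} {σ : Fin 3 → Fin 3} {w q V H X k : ℕ} {D : ℝ}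
  {a s t a' s' t' : F.Ω → ℝ}

theorem nfr_of_nex (hF : Frg F A w V H D a s t a' s' t') (hD : 0 ≤ D) {y : F.Ω → Pln} {ω : F.Ω}
    (hω : A ω) (hn : Nex V H k D (y ω) (a ω) (a' ω) (s' ω) (t' ω)) :
    Nfr V H (V + H) (2 * D) (y ω) (fpl (a ω) (s ω) (t ω)) := by
  have m : ∀ n : ℕ, D / 2 ^ (n + k) ≤ D / 2 ^ n := fun n =>
    div_le_div_of_nonneg_left hD (by positivity) (pow_le_pow_right₀ (by norm_num) (by omega))
  have d2 : ∀ n : ℕ, 2 * D / 2 ^ n = D / 2 ^ n + D / (2 : ℝ) ^ n := fun n => by ring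
  refine ⟨?_, ?_, ?_⟩
  · rw [d2]
    have e1 : (y ω).e - (fpl (a ω) (s ω) (t ω)).e = -(a' ω - (y ω).e) + (a' ω - a ω) := by
      unfold fpl
      ring
    rw [e1]
    refine (abs_add_le _ _).trans ?_
    rw [abs_neg]
    exact add_le_add hn.e (hF.ca ω hω)
  · rw [d2]
    have e1 : (y ω).s - (fpl (a ω) (s ω) (t ω)).s = (s' ω + (y ω).s) - (s' ω - s ω) := by
      unfold fpl
      ring
    rw [e1]
    exact (abs_sub _ _).trans (add_le_add (hn.s.trans (m H)) (hF.cs ω hω))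
  · rw [d2]
    have e1 : Ae (y ω).c (y ω).s (fpl (a ω) (s ω) (t ω)).c (fpl (a ω) (s ω) (t ω)).s
        (fpl (a ω) (s ω) (t ω)).e = (t' ω + (y ω).c + (s' ω + (y ω).s) * a ω) -
          ((t' ω - t ω) + (s' ω - s ω) * a ω) := by
      unfold fpl Ae
      ring
    rw [e1]
    exact (abs_sub _ _).trans (add_le_add (hn.t.trans (m (V + H))) (hF.ct ω hω))

theorem sc0_nex {y : Pln} {ω : F.Ω} (hn : Nex V H k D y (a ω) (a' ω) (s' ω) (t' ω)) :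
    |Sc0 (V + H) y (fpl (a ω) (s ω) (t ω)) + SS V H a s t s' t' 0 ω| ≤ D / 2 ^ k := by
  have e1 : Sc0 (V + H) y (fpl (a ω) (s ω) (t ω)) + SS V H a s t s' t' 0 ω =
      2 ^ (V + H) * (t' ω + y.c + (s' ω + y.s) * a ω) := by
    show 2 ^ (V + H) * Ae y.c y.s (fpl (a ω) (s ω) (t ω)).c (fpl (a ω) (s ω) (t ω)).s
      (fpl (a ω) (s ω) (t ω)).e + (2 ^ (V + H) * ((t' ω - t ω) + (s' ω - s ω) * a ω)) = _
    unfold fpl Ae
    ring
  have p : (0 : ℝ) < 2 ^ (V + H) := by positivity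
  rw [e1, abs_mul, abs_of_pos p]
  refine (mul_le_mul_of_nonneg_left hn.t p.le).trans (le_of_eq ?_)
  rw [pow_add 2 (V + H) k]
  field_simp

theorem sc1_nex {y : Pln} {ω : F.Ω} (hn : Nex V H k D y (a ω) (a' ω) (s' ω) (t' ω)) :
    |Sc1 H y (fpl (a ω) (s ω) (t ω)) + SS V H a s t s' t' 1 ω| ≤ D / 2 ^ k := by
  have e1 : Sc1 H y (fpl (a ω) (s ω) (t ω)) + SS V H a s t s' t' 1 ω = 2 ^ H * (s' ω + y.s) := by
    show 2 ^ H * (y.s - (fpl (a ω) (s ω) (t ω)).s) + (2 ^ H * (s' ω - s ω)) = _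
    unfold fpl
    ring
  have p : (0 : ℝ) < 2 ^ H := by positivity
  rw [e1, abs_mul, abs_of_pos p]
  refine (mul_le_mul_of_nonneg_left hn.s p.le).trans (le_of_eq ?_)
  rw [pow_add]
  field_simp

/-- **(H6)** in the contexts; the exact frame is a visible plank up to errors. -/
theorem h6_frx {Qt : ℕ} (hQJ : Qt ≤ J) (hσ : Function.Injective σ) {W lam P P2 k₀ : ℕ}
    {C κ δ : ℝ} (hC : 1 ≤ C) (hl : IsLaw (Pool.Agent.H49.Ent.cond F.p A True))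
    (hF : Frg F A w V H D a s t a' s' t')
    {y : F.Ω → Pln} (hn : ∀ ω, A ω → Nex V H k D (y ω) (a ω) (a' ω) (s' ω) (t' ω))
    (hI : ∀ ω, A ω → Inc (σ 0) (σ 1) (σ 2) W lam P C (y ω) (F.t ω) (F.x ω) (F.d ω))
    {φ : (Fin 3 → ℤ) × (ℕ × F.ζ) → Pln} (hφ : ∀ ω, A ω → y ω = φ (ptq F Qt ω))
    (hD0 : 1 ≤ D) (hD : 4 * D ≤ 2 ^ k₀) (h1 : V ≤ lam + k₀) (h2 : w + V ≤ Qt) (hk0 : k₀ ≤ k)
    (h3 : k₀ + 3 ≤ V + H) (h4 : P2 + 2 * k₀ + 3 ≤ w + (V + H + k))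
    (h5 : W + P2 ≤ w + P) (h6 : P2 ≤ Qt)
    (hB : ∀ B : F.Ω → Prop, Sub B A → Real.exp (-(κ + Real.log 9 + KC C)) * Pe F.p A ≤ Pe F.p B →
      ¬ LABq F Qt (σ 0) (σ 1) (σ 2) w 0 P2 2 B) (hδ : δ ≤ 1 / 2 ^ k) :
    Pool.KAF.Pr (dbl (Pool.Agent.H49.Ent.cond F.p A True)
        (fun ω => (blk F σ w q V H X a s t ω, ctx F σ w q V H a s t ω)))
      {x | ∀ j, |SS V H a s t s' t' j x.1 - SS V H a s t s' t' j x.2| < δ} ≤ Real.exp (-κ) := by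
  have hA : ∀ ω, 0 < Pool.Agent.H49.Ent.cond F.p A True ω → A ω := fun ω hω => by
    have := ((cond_pos_iff F.isLaw.nonneg A True ω).1 hω).2
    simpa using this
  have hl9 : 0 ≤ Real.log 9 := Real.log_nonneg (by norm_num)
  have hkk : (1 : ℝ) / 2 ^ k + 2 * (D / 2 ^ k) ≤ 1 / 2 ^ (k - k₀) := by
    have e1 : (2 : ℝ) ^ k = 2 ^ k₀ * 2 ^ (k - k₀) := by
      rw [← pow_add]
      congr 1
      omega
    have e2 : (1 : ℝ) / 2 ^ k + 2 * (D / 2 ^ k) = (1 + 2 * D) / 2 ^ k := by ring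
    rw [e2, e1, ← div_div, div_le_div_iff_of_pos_right (by positivity),
      div_le_one (by positivity)]
    linarith only [hD0, hD]
  have tr : ∀ x : F.Ω × F.Ω, (blk F σ w q V H X a s t x.1, ctx F σ w q V H a s t x.1) =
      (blk F σ w q V H X a s t x.2, ctx F σ w q V H a s t x.2) →
      0 < Pool.Agent.H49.Ent.cond F.p A True x.1 → 0 < Pool.Agent.H49.Ent.cond F.p A True x.2 →
      x ∈ {x : F.Ω × F.Ω | ∀ j, |SS V H a s t s' t' j x.1 - SS V H a s t s' t' j x.2| < δ} →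
      ∃ z : Pln, Nfr V H (V + H) (2 * D) (y x.1) z ∧ Nfr V H (V + H) (2 * D) (y x.2) z ∧
        |Sc0 (V + H) (y x.1) z - Sc0 (V + H) (y x.2) z| ≤ 1 / 2 ^ (k - k₀) ∧
        |Sc1 H (y x.1) z - Sc1 H (y x.2) z| ≤ 1 / 2 ^ (k - k₀) := by
    rintro x hg hx1 hx2 hx3
    have k1 := hA _ hx1
    have k2 := hA _ hx2
    have hb : ctx F σ w q V H a s t x.1 = ctx F σ w q V H a s t x.2 :=
      (Prod.ext_iff.mp hg).2
    obtain ⟨f1, f2, f3⟩ := ctx_frm hσ hb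
    have n1 := nfr_of_nex hF (by linarith only [hD0]) k1 (hn _ k1)
    have n2 := nfr_of_nex hF (by linarith only [hD0]) k2 (hn _ k2)
    have q1 : |SS V H a s t s' t' 0 x.1 - SS V H a s t s' t' 0 x.2| < δ := hx3 0
    have q2 : |SS V H a s t s' t' 1 x.1 - SS V H a s t s' t' 1 x.2| < δ := hx3 1
    have s1 := abs_le.1 (sc0_nex (s := s) (t := t) (hn _ k1))
    have s2 := abs_le.1 (sc0_nex (s := s) (t := t) (hn _ k2))
    have s3 := abs_le.1 (sc1_nex (s := s) (t := t) (hn _ k1))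
    have s4 := abs_le.1 (sc1_nex (s := s) (t := t) (hn _ k2))
    have q3 := abs_lt.1 (q1.trans_le hδ)
    have q4 := abs_lt.1 (q2.trans_le hδ)
    rw [f1, f2, f3] at n1 s1 s3
    refine ⟨_, n1, n2, le_trans (abs_le.2 ?_) hkk, le_trans (abs_le.2 ?_) hkk⟩
    · constructor <;> linarith only [s1, s2, q3]
    · constructor <;> linarith only [s3, s4, q4]
  by_cases hk : k₀ ≤ V
  · refine Pr_dbl_self hl ?_ (h6b F hQJ (sig_all hσ) (v := w) (W := W) (lam := lam) (P := P)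
      (l2 := V - k₀) (sg := H + (k - k₀)) (ag := V + H + (k - k₀) - k₀) (P2 := P2) (κ := κ) hC hl
      hI hφ (lab_slam hF) (by omega) (by omega) (by omega) (by omega) h5 h6 ?_)
    · intro x hg hx1 hx2 hx3
      obtain ⟨z, n1, n2, q1, q2⟩ := tr x hg hx1 hx2 hx3
      exact agr_of_sc (by omega) hk (by linarith only [hD0]) (by linarith only [hD]) n1 n2 q1 q2
    · intro B hBA hPB hLB
      refine hB B hBA (le_trans ?_ hPB) ?_
      · refine mul_le_mul_of_nonneg_right (Real.exp_le_exp.2 ?_) (Pe_nonneg F.isLaw A)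
        linarith only [hl9]
      obtain ⟨y', q1, q2, q3⟩ := hLB
      refine ⟨y', fun ω hω => ?_, q2, q3⟩
      have q := q1 ω hω
      refine ⟨q.e_le, q.c_le, q.s_le, q.pe, q.pu.trans ?_, q.pn, q.ve, q.vu.trans ?_, q.vn⟩
      · exact div_le_div_of_nonneg_left (by norm_num) (by positivity)
          (pow_le_pow_right₀ (by norm_num) (by omega))
      · exact div_le_div_of_nonneg_left (by norm_num) (by positivity)
          (pow_le_pow_right₀ (by norm_num) (by omega))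
  · refine Pr_dbl_self hl ?_ (h6b0 F hQJ (sig_all hσ) (v := w) (W := W) (lam := lam) (P := P)
      (sg := H + (k - k₀)) (ag := V + H + (k - k₀) - k₀) (P2 := P2) (κ := κ) hC hl hI hφ
      (lab_slam hF) (by omega) (by omega) (by omega) (by omega) h5 h6 hB)
    intro x hg hx1 hx2 hx3
    obtain ⟨z, n1, n2, q1, q2⟩ := tr x hg hx1 hx2 hx3
    refine ⟨?_, agr_of_sc0 (by omega) (by omega) (by linarith only [hD0]) (by linarith only [hD]) n2 q1 q2⟩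
    have e1 := (hI _ (hA _ hx1)).e_le
    have e2 := (hI _ (hA _ hx2)).e_le
    exact (abs_sub _ _).trans (by linarith only [e1, e2])

/-- **(H7)** in the contexts, for the exact directions. -/
theorem h7_frx {Qt : ℕ} (hσ : Function.Injective σ) {Bs κ δ r ρ : ℝ}
    (hl : IsLaw (Pool.Agent.H49.Ent.cond F.p A True)) (hF : Frg F A w V H D a s t a' s' t')
    {nu b : F.Ω → ℝ} (hfp : ∃ φ : (Fin 3 → ℤ) × (ℕ × F.ζ) → ℝ × ℝ × ℝ × ℝ × ℝ,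
      ∀ ω, A ω → (a' ω, s' ω, t' ω, nu ω, b ω) = φ (ptq F Qt ω))
    (hu : ∀ ω, A ω → |F.d ω (σ 1) - a' ω * F.d ω (σ 0) - nu ω| ≤ r)
    (hN : ∀ ω, A ω → |F.d ω (σ 2) - s' ω * F.d ω (σ 1) - t' ω * F.d ω (σ 0) - b ω| ≤ r)
    (hBs : 0 ≤ Bs) (hs' : ∀ ω, A ω → |s' ω| ≤ Bs) (hs : ∀ ω, A ω → |s ω| ≤ Bs)
    (hD0 : 0 ≤ D) (hρ : D / 2 ^ (V + H) + D * D / 2 ^ (V + H) ≤ ρ) (hr : 0 ≤ r)
    (hB : ∀ B : F.Ω → Prop, Sub B A → Real.exp (-κ) * Pe F.p A ≤ Pe F.p B →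
      ¬ RotU (σ 0) ((1 + Bs) * r) ((1 + Bs) * ρ) (ptq F Qt) (slam F w) F.d B)
    (hδ : δ ≤ ρ * 2 ^ V) :
    Pool.KAF.Pr (dbl (Pool.Agent.H49.Ent.cond F.p A True)
        (fun ω => (blk F σ w q V H X a s t ω, ctx F σ w q V H a s t ω)))
      {x | |EE V a a' x.1 - EE V a a' x.2| < δ} ≤ Real.exp (-κ) := by
  obtain ⟨φ, hφ⟩ := hfp
  have hr1 : r ≤ (1 + Bs) * r := by nlinarith only [hBs, hr]
  refine Pr_dbl_self hl ?_ (h7_lab F (sig_all hσ) (v := w) (κ := κ) (r := (1 + Bs) * r) (ρ := ρ)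
    (Bs := Bs) hl (al := a') (be := fun ω => t' ω + s' ω * a' ω) (nu := nu)
    (ga := fun ω => b ω + s' ω * nu ω)
    ⟨fun u => ((φ u).1, (φ u).2.2.1 + (φ u).2.1 * (φ u).1, (φ u).2.2.2.1,
      (φ u).2.2.2.2 + (φ u).2.1 * (φ u).2.2.2.1), fun ω hω => ?_⟩ (fun ω hω => (hu ω hω).trans hr1)
    ?_ (lab_slam hF) (s := s) (t := t) ?_ hBs hs ?_ (by positivity) hB)
  · rintro x hg hx1 hx2 hx3
    have hb : ctx F σ w q V H a s t x.1 = ctx F σ w q V H a s t x.2 := (Prod.ext_iff.mp hg).2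
    obtain ⟨f1, f2, f3⟩ := ctx_frm hσ hb
    have q1 : |2 ^ V * (a' x.1 - a x.1) - 2 ^ V * (a' x.2 - a x.2)| < δ := hx3
    have q2 := scaled_le q1.le
    have e2 : a' x.1 - a' x.2 = (a' x.1 - a x.1) - (a' x.2 - a x.2) := by rw [f1]; ring
    rw [e2]
    refine q2.trans ?_
    rw [div_le_iff₀ (by positivity)]
    exact hδ
  · beta_reduce
    rw [← hφ ω hω]
  · intro ω hω
    have e1 : F.d ω (σ 2) - (t' ω + s' ω * a' ω) * F.d ω (σ 0) - (b ω + s' ω * nu ω) =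
        (F.d ω (σ 2) - s' ω * F.d ω (σ 1) - t' ω * F.d ω (σ 0) - b ω) +
          s' ω * (F.d ω (σ 1) - a' ω * F.d ω (σ 0) - nu ω) := by ring
    rw [e1]
    refine (abs_add_le _ _).trans ?_
    rw [abs_mul]
    have h7 : |s' ω| * |F.d ω (σ 1) - a' ω * F.d ω (σ 0) - nu ω| ≤ Bs * r :=
      mul_le_mul (hs' ω hω) (hu ω hω) (abs_nonneg _) hBs
    have := hN ω hω
    linarith only [h7, this]
  · intro ω ω' h
    have hb : ctx F σ w q V H a s t ω = ctx F σ w q V H a s t ω' := (Prod.ext_iff.mp h).2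
    obtain ⟨f1, f2, f3⟩ := ctx_frm hσ hb
    exact ⟨f2, f3⟩
  · intro ω hω
    have e1 : t' ω + s' ω * a' ω - (t ω + s ω * a' ω) =
        ((t' ω - t ω) + (s' ω - s ω) * a ω) + (s' ω - s ω) * (a' ω - a ω) := by ring
    rw [e1]
    refine (abs_add_le _ _).trans (le_trans ?_ hρ)
    rw [abs_mul]
    have h7 : |s' ω - s ω| * |a' ω - a ω| ≤ D / 2 ^ H * (D / 2 ^ V) :=
      mul_le_mul (hF.cs ω hω) (hF.ca ω hω) (abs_nonneg _) (by positivity)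
    have e2 : D / 2 ^ H * (D / 2 ^ V) = D * D / 2 ^ (V + H) := by
      rw [pow_add]
      field_simp
    rw [e2] at h7
    exact add_le_add (hF.ct ω hω) h7

end Box

/-! ### Classes -/

open Pool.S6C

/-- Above the number of a class, the property fails on all events which are not exponentially
small; the same for the events of such an event. -/
theorem num_no2 {m : ℕ} {S : PCl m} {q : ℝ → Stat m} {s : ℝ}
    (her : ∀ (s : ℝ) (J : ℕ) (F : Fam m J), Hered (q s J F)) (hs : PNum S q s) {h : ℝ}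
    (hh : 0 < h) (K : ℝ) : ∃ c > 0, ∃ J₁ : ℕ, ∀ J ≥ J₁, ∀ (F : Fam m J) (A : F.Ω → Prop),
      S.St c J F A → ∀ B : F.Ω → Prop, Sub B A → Real.exp (-(c * J)) * Pe F.p A ≤ Pe F.p B →
      ∀ E : F.Ω → Prop, Sub E B → Real.exp (-(c * J + K)) * Pe F.p B ≤ Pe F.p E →
      ¬ q (s + h) J F E := by
  obtain ⟨c, hc, J₁, hn⟩ := num_no her hs hh
  obtain ⟨J₂, hJ₂⟩ := exists_nat_gt (K / (c / 3))
  refine ⟨c / 3, by positivity, max J₁ J₂, fun J hJ F A hS B hB hPB E hE hPE => ?_⟩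
  have hJ1 : J₁ ≤ J := (le_max_left _ _).trans hJ
  have hJ2 : (J₂ : ℝ) ≤ J := by exact_mod_cast (le_max_right _ _).trans hJ
  have hK : K ≤ c / 3 * J := by
    have := hJ₂.trans_le hJ2
    rw [div_lt_iff₀ (by positivity)] at this
    linarith only [this]
  have hJ0 : (0 : ℝ) ≤ J := Nat.cast_nonneg J
  refine hn J hJ1 F A (S.mono (by linarith only [hc]) hS) E (fun ω hω => hB ω (hE ω hω)) ?_
  refine le_trans ?_ hPE
  have h1 : Real.exp (-(c * J)) ≤ Real.exp (-(c / 3 * J + K)) * Real.exp (-(c / 3 * J)) := by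
    rw [← Real.exp_add]
    refine Real.exp_le_exp.2 ?_
    linarith only [hK]
  calc Real.exp (-(c * J)) * Pe F.p A
      ≤ Real.exp (-(c / 3 * J + K)) * Real.exp (-(c / 3 * J)) * Pe F.p A :=
        mul_le_mul_of_nonneg_right h1 (Pe_nonneg F.isLaw A)
    _ = Real.exp (-(c / 3 * J + K)) * (Real.exp (-(c / 3 * J)) * Pe F.p A) := by ring
    _ ≤ _ := mul_le_mul_of_nonneg_left hPB (Real.exp_pos _).le

/-- **(H6) at class level**, for exact frames which are visible planks up to errors, on all events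
which are not exponentially small. -/
theorem h6_cl {S : PCl 3} {i0 : Fin 3} {Q : ℝ} (hQ : Q ≤ 1) {w : ℚ} (hw : 0 ≤ w) {G : ℝ}
    (hG : PNum S (capS Q (qTh i0 Q w)) G) {x₀ δ h : ℝ} (hx₀ : 0 < x₀) (hδ : 0 < δ)
    (hh0 : 0 ≤ h) (hh : 4 * h ≤ x₀ * δ) (hGx : G + x₀ * δ / 2 ≤ Q) (hGw : w + h < G) {C D : ℝ}
    (hC : 1 ≤ C) (hD : 1 ≤ D) :
    ∃ c > 0, ∃ J₁ : ℕ, ∀ J ≥ J₁, ∀ (F : Fam 3 J) (A : F.Ω → Prop), S.St c J F A →
      ∀ B : F.Ω → Prop, Sub B A → Real.exp (-(c * J)) * Pe F.p A ≤ Pe F.p B →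
      IsLaw (Pool.Agent.H49.Ent.cond F.p B True) → ∀ σ : Fin 3 → Fin 3, Function.Injective σ →
      σ 0 = i0 → ∀ (q V H X W lam P : ℕ) (a s t a' s' t' : F.Ω → ℝ) (y : F.Ω → Pln),
      Frg F B ⌊(w : ℝ) * J⌋₊ V H D a s t a' s' t' →
      (∀ ω, B ω → Nex V H ⌊x₀ * X⌋₊ D (y ω) (a ω) (a' ω) (s' ω) (t' ω)) →
      (∀ ω, B ω → Inc (σ 0) (σ 1) (σ 2) W lam P C (y ω) (F.t ω) (F.x ω) (F.d ω)) →
      (∃ φ : (Fin 3 → ℤ) × (ℕ × F.ζ) → Pln, ∀ ω, B ω → y ω = φ (ptq F ⌊Q * J⌋₊ ω)) →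
      δ * J - 1 ≤ X → (G - w - h) * J ≤ ((V + H : ℕ) : ℝ) → V ≤ lam →
      ⌊(w : ℝ) * J⌋₊ + V ≤ ⌊Q * J⌋₊ → (W : ℝ) + (G + x₀ * δ / 2 - w) * J + 1 ≤ P →
      Pool.KAF.Pr (dbl (Pool.Agent.H49.Ent.cond F.p B True)
          (fun ω => (blk F σ ⌊(w : ℝ) * J⌋₊ q V H X a s t ω,
            ctx F σ ⌊(w : ℝ) * J⌋₊ q V H a s t ω)))
        {x | ∀ j, |SS V H a s t s' t' j x.1 - SS V H a s t s' t' j x.2| <
          (2 : ℝ) ^ (-(x₀ * X))} ≤ Real.exp (-(c * J)) := by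
  have hx : 0 < x₀ * δ / 2 := by positivity
  obtain ⟨c, hc, J₁, hn⟩ := num_no2 (qTh_hered i0 Q w) hG hx (Real.log 9 + KC C)
  obtain ⟨k₀, hk₀⟩ := pow_unbounded_of_one_lt (4 * D) (by norm_num : (1 : ℝ) < 2)
  obtain ⟨J₃, hJ₃⟩ := exists_nat_gt ((2 * k₀ + x₀ + 7) / (x₀ * δ / 4))
  obtain ⟨J₄, hJ₄⟩ := exists_nat_gt ((k₀ + 3) / (G - w - h))
  refine ⟨c, hc, max J₁ (max J₃ J₄), ?_⟩
  intro J hJ F A hS B hBA hPB hl σ hσ hσ0 q V H X W lam P a s t a' s' t' y hF hy hI hvis hX hVH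
    h1 h2 h5
  obtain ⟨φ, hφ⟩ := hvis
  have hJ1 : J₁ ≤ J := (le_max_left _ _).trans hJ
  have hJ3 : (J₃ : ℝ) ≤ J := by
    exact_mod_cast ((le_max_left _ _).trans (le_max_right _ _)).trans hJ
  have hJ4 : (J₄ : ℝ) ≤ J := by
    exact_mod_cast ((le_max_right _ _).trans (le_max_right _ _)).trans hJ
  have hJ0 : (0 : ℝ) ≤ J := Nat.cast_nonneg J
  have g3 : 2 * (k₀ : ℝ) + x₀ + 7 < x₀ * δ / 4 * J := by
    have := hJ₃.trans_le hJ3
    rw [div_lt_iff₀ (by positivity)] at this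
    linarith only [this]
  have g4 : (k₀ : ℝ) + 3 < (G - w - h) * J := by
    have := hJ₄.trans_le hJ4
    rw [div_lt_iff₀ (by linarith only [hGw])] at this
    linarith only [this]
  have hQJ : ⌊Q * J⌋₊ ≤ J := by
    refine Nat.floor_le_of_le ?_
    calc Q * J ≤ 1 * J := mul_le_mul_of_nonneg_right hQ hJ0
      _ = J := one_mul _
  have hw0 : (0 : ℝ) ≤ w := by exact_mod_cast hw
  have hk0 : (0 : ℝ) ≤ k₀ := Nat.cast_nonneg k₀
  have f1 := Nat.floor_le (mul_nonneg hw0 hJ0)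
  have f2 := Nat.lt_floor_add_one ((w : ℝ) * J)
  have hx0X : 0 ≤ x₀ * X := by positivity
  have f3 := Nat.floor_le hx0X
  have f4 := Nat.lt_floor_add_one (x₀ * X)
  have hhG : h ≤ x₀ * δ / 4 := by linarith only [hh]
  have hG0 : 0 ≤ (G + x₀ * δ / 2) * J := mul_nonneg (by linarith only [hh0, hGw, hx, hw0]) hJ0
  have f5 := Nat.floor_le hG0
  have hX2 : x₀ * (δ * J - 1) ≤ x₀ * X := mul_le_mul_of_nonneg_left hX hx₀.le
  have hhJ : h * J ≤ x₀ * δ / 4 * J := mul_le_mul_of_nonneg_right hhG hJ0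
  have c0 : k₀ ≤ ⌊x₀ * X⌋₊ := by
    have : (k₀ : ℝ) ≤ ⌊x₀ * X⌋₊ := by
      ring_nf at hX2 g3 f4 ⊢
      linarith only [hQ, hx₀, hh0, hGx, hGw, hx, hw0, hX2, g3, f4]
    exact_mod_cast this
  have c1 : ⌊(G + x₀ * δ / 2) * J⌋₊ ≤ ⌊Q * J⌋₊ :=
    Nat.floor_le_floor (mul_le_mul_of_nonneg_right hGx hJ0)
  have c2 : k₀ + 3 ≤ V + H := by
    have : ((k₀ + 3 : ℕ) : ℝ) ≤ ((V + H : ℕ) : ℝ) := by
      push_cast at hVH ⊢
      linarith only [g4, hVH]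
    exact_mod_cast this
  have c3 : ⌊(G + x₀ * δ / 2) * J⌋₊ + 2 * k₀ + 3 ≤ ⌊(w : ℝ) * J⌋₊ + (V + H + ⌊x₀ * X⌋₊) := by
    have : ((⌊(G + x₀ * δ / 2) * J⌋₊ + 2 * k₀ + 3 : ℕ) : ℝ) ≤
        ((⌊(w : ℝ) * J⌋₊ + (V + H + ⌊x₀ * X⌋₊) : ℕ) : ℝ) := by
      push_cast at hVH ⊢
      ring_nf at hVH f5 hX2 hhJ g3 f1 f2 ⊢
      linarith only [hQ, hh0, hGx, hGw, hx, hw0, f4, hVH, f5, hX2, hhJ, g3, f2]
    exact_mod_cast this
  have c4 : W + ⌊(G + x₀ * δ / 2) * J⌋₊ ≤ ⌊(w : ℝ) * J⌋₊ + P := by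
    have : ((W + ⌊(G + x₀ * δ / 2) * J⌋₊ : ℕ) : ℝ) ≤ ((⌊(w : ℝ) * J⌋₊ + P : ℕ) : ℝ) := by
      push_cast
      ring_nf at h5 f5 f2 ⊢
      linarith only [h5, f5, f2]
    exact_mod_cast this
  have c5 : (2 : ℝ) ^ (-(x₀ * X)) ≤ 1 / 2 ^ ⌊x₀ * X⌋₊ := by
    rw [Real.rpow_neg (by norm_num), ← one_div]
    refine div_le_div_of_nonneg_left (by norm_num) (by positivity) ?_
    rw [← Real.rpow_natCast]
    exact Real.rpow_le_rpow_of_exponent_le (by norm_num) f3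
  refine h6_frx (F := F) hQJ hσ (κ := c * J) (P2 := ⌊(G + x₀ * δ / 2) * J⌋₊)
    (k := ⌊x₀ * X⌋₊) (k₀ := k₀) hC hl hF hy hI hφ hD hk₀.le (by omega) h2 c0 c2 c3 c4 c1 ?_ c5
  intro E hEB hPE hLE
  refine hn J hJ1 F A hS B hBA hPB E hEB ?_ (Or.inr ⟨hGx, σ 1, σ 2, ?_, ?_⟩)
  · rw [← add_assoc]
    exact hPE
  · rw [← hσ0]
    exact sig_all hσ
  · rw [← hσ0]
    exact hLE

/-- **(H7) at class level**, for the exact directions and any label which is a function of the line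
and the window, on all events which are not exponentially small. -/
theorem h7_labc {S : PCl 3} {i0 : Fin 3} {Q : ℝ} {w : ℚ} {ρ₀ : ℝ} (hρ0 : 0 ≤ ρ₀)
    (hG : PNum S (capS 1 (qRot i0 Q w)) ρ₀) {x₀ δ h h₂ : ℝ} (hx₀ : 0 < x₀) (hδ : 0 < δ)
    (hh : 4 * h ≤ x₀ * δ) (hh₂ : 0 < h₂) (hx1 : ρ₀ + x₀ * δ / 2 ≤ 1)
    {C Bs : ℝ} (hC : 0 < C) (hBs : 0 ≤ Bs) :
    ∃ c > 0, ∃ J₁ : ℕ, ∀ J ≥ J₁, ∀ (F : Fam 3 J) (A : F.Ω → Prop), S.St c J F A →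
      ∀ B : F.Ω → Prop, Sub B A → Real.exp (-(c * J)) * Pe F.p A ≤ Pe F.p B →
      IsLaw (Pool.Agent.H49.Ent.cond F.p B True) → ∀ iu iN : Fin 3,
      (∀ j : Fin 3, j = i0 ∨ j = iu ∨ j = iN) →
      ∀ (V X n m : ℕ) (al be nu ga a s t : F.Ω → ℝ) (T : Type) (b : F.Ω → T),
      (∃ φ : (Fin 3 → ℤ) × (ℕ × F.ζ) → ℝ × ℝ × ℝ × ℝ,
        ∀ ω, B ω → (al ω, be ω, nu ω, ga ω) = φ (ptq F ⌊Q * J⌋₊ ω)) →
      (∀ ω, B ω → |F.d ω iu - al ω * F.d ω i0 - nu ω| ≤ C / 2 ^ n) →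
      (∀ ω, B ω → |F.d ω iN - be ω * F.d ω i0 - ga ω| ≤ C / 2 ^ n) →
      (∀ ω ω', slam F ⌊(w : ℝ) * J⌋₊ ω = slam F ⌊(w : ℝ) * J⌋₊ ω' → b ω = b ω') →
      (∀ ω ω', b ω = b ω' → a ω = a ω' ∧ s ω = s ω' ∧ t ω = t ω') →
      (∀ ω, B ω → |s ω| ≤ Bs) → (∀ ω, B ω → |be ω - (t ω + s ω * al ω)| ≤ C / 2 ^ m) →
      δ * J - 1 ≤ X → (ρ₀ - h) * J ≤ V → V + x₀ * X + h₂ * J ≤ m →
      (ρ₀ + x₀ * δ / 2 + h₂) * J ≤ n →
      Pool.KAF.Pr (dbl (Pool.Agent.H49.Ent.cond F.p B True) b)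
        {x | |2 ^ V * (al x.1 - a x.1) - 2 ^ V * (al x.2 - a x.2)| < (2 : ℝ) ^ (-(x₀ * X))} ≤
          Real.exp (-(c * J)) := by
  have hx : 0 < x₀ * δ / 2 := by positivity
  obtain ⟨c, hc, J₁, hn⟩ := num_no2 (qRot_hered i0 Q w) hG hx 0
  obtain ⟨k₀, hk₀⟩ := pow_unbounded_of_one_lt (C + Bs + 1) (by norm_num : (1 : ℝ) < 2)
  obtain ⟨J₂, hJ₂⟩ := exists_nat_gt (k₀ / h₂)
  obtain ⟨J₃, hJ₃⟩ := exists_nat_gt ((x₀ + k₀) / (x₀ * δ / 4))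
  refine ⟨c, hc, max J₁ (max J₂ J₃), ?_⟩
  intro J hJ F A hS B hBA hPB hl iu iN hi V X n m al be nu ga a s t T b hfp hu hN hb hst hs hβ hX
    hV hm hnn
  have hJ1 : J₁ ≤ J := (le_max_left _ _).trans hJ
  have hJ2 : (J₂ : ℝ) ≤ J := by
    exact_mod_cast ((le_max_left _ _).trans (le_max_right _ _)).trans hJ
  have hJ3 : (J₃ : ℝ) ≤ J := by
    exact_mod_cast ((le_max_right _ _).trans (le_max_right _ _)).trans hJ
  have hJ0 : (0 : ℝ) ≤ J := Nat.cast_nonneg J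
  have g2 : (k₀ : ℝ) < h₂ * J := by
    have := hJ₂.trans_le hJ2
    rw [div_lt_iff₀ hh₂] at this
    linarith only [this]
  have g3 : x₀ + k₀ < x₀ * δ / 4 * J := by
    have := hJ₃.trans_le hJ3
    rw [div_lt_iff₀ (by positivity)] at this
    linarith only [this]
  have hhG : h ≤ x₀ * δ / 4 := by linarith only [hh]
  have hX2 : x₀ * (δ * J - 1) ≤ x₀ * X := mul_le_mul_of_nonneg_left hX hx₀.le
  have hhJ : h * J ≤ x₀ * δ / 4 * J := mul_le_mul_of_nonneg_right hhG hJ0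
  have t2 : (0 : ℝ) < 2 := by norm_num
  have t1 : (1 : ℝ) ≤ 2 := by norm_num
  have hG0 : 0 ≤ (ρ₀ + x₀ * δ / 2) * J := mul_nonneg (by linarith only [hρ0, hx]) hJ0
  have f5 := Nat.floor_le hG0
  have hk1 : 1 + Bs ≤ (2 : ℝ) ^ k₀ := by linarith only [hC, hk₀]
  have hk2 : C ≤ (2 : ℝ) ^ k₀ := by linarith only [hBs, hk₀]
  have hr : C / 2 ^ n ≤ 1 / 2 ^ ⌊(ρ₀ + x₀ * δ / 2) * J⌋₊ := by
    have hfl : ⌊(ρ₀ + x₀ * δ / 2) * J⌋₊ + k₀ ≤ n := by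
      have : ((⌊(ρ₀ + x₀ * δ / 2) * J⌋₊ + k₀ : ℕ) : ℝ) ≤ n := by
        push_cast
        linarith only [hnn, g2, f5]
      exact_mod_cast this
    rw [div_le_div_iff₀ (by positivity) (by positivity), one_mul]
    have e1 : (2 : ℝ) ^ (⌊(ρ₀ + x₀ * δ / 2) * J⌋₊ + k₀) ≤ 2 ^ n := pow_le_pow_right₀ t1 hfl
    refine le_trans ?_ e1
    rw [pow_add, mul_comm]
    exact mul_le_mul_of_nonneg_left hk2 (by positivity)
  have hρ1 : C / 2 ^ m ≤ (2 : ℝ) ^ (-(x₀ * X)) / 2 ^ V := by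
    rw [← Real.rpow_natCast 2 V, ← Real.rpow_sub t2, div_le_iff₀ (by positivity),
      ← Real.rpow_natCast 2 m, ← Real.rpow_add t2]
    have e1 : C ≤ (2 : ℝ) ^ (k₀ : ℝ) := by
      rw [Real.rpow_natCast]
      exact hk2
    refine e1.trans ?_
    exact Real.rpow_le_rpow_of_exponent_le t1 (by linarith only [hm, g2])
  have h5ρ : (1 + Bs) * ((2 : ℝ) ^ (-(x₀ * X)) / 2 ^ V) ≤ 1 / 2 ^ ⌊(ρ₀ + x₀ * δ / 2) * J⌋₊ := by
    rw [← Real.rpow_natCast 2 V, ← Real.rpow_natCast 2 ⌊(ρ₀ + x₀ * δ / 2) * J⌋₊, ← Real.rpow_sub t2,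
      one_div, ← Real.rpow_neg t2.le]
    have e1 : 1 + Bs ≤ (2 : ℝ) ^ (k₀ : ℝ) := by
      rw [Real.rpow_natCast]
      exact hk1
    refine (mul_le_mul_of_nonneg_right e1 (Real.rpow_nonneg t2.le _)).trans ?_
    rw [← Real.rpow_add t2]
    refine Real.rpow_le_rpow_of_exponent_le t1 ?_
    ring_nf at hV f5 hX2 hhJ g3 ⊢
    linarith only [hV, f5, hX2, hhJ, g3]
  refine Pr_dbl_self hl ?_ (h7_lab F hi (v := ⌊(w : ℝ) * J⌋₊) (κ := c * J) (Bs := Bs)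
    (ρ := (2 : ℝ) ^ (-(x₀ * X)) / 2 ^ V) hl hfp hu hN hb (s := s) (t := t)
    (fun ω ω' h => (hst ω ω' h).2) hBs hs (fun ω hω => (hβ ω hω).trans hρ1) (by positivity) ?_)
  · rintro x hg hx1' hx2' hx3
    have q1 : |2 ^ V * (al x.1 - a x.1) - 2 ^ V * (al x.2 - a x.2)| < (2 : ℝ) ^ (-(x₀ * X)) := hx3
    have q2 := scaled_le q1.le
    have e2 : al x.1 - al x.2 = (al x.1 - a x.1) - (al x.2 - a x.2) := by
      rw [(hst _ _ hg).1]
      ring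
    rw [e2]
    exact q2
  · intro E hEB hPE hLE
    refine hn J hJ1 F A hS B hBA hPB E hEB ?_ (Or.inr ⟨hx1, ?_⟩)
    · rw [add_zero]
      exact hPE
    · exact hLE.mono hr h5ρ

/-- **(H7) at class level in the contexts**, for the exact directions, on all events which are not
exponentially small. -/
theorem h7_cl {S : PCl 3} {i0 : Fin 3} {Q : ℝ} {w : ℚ} {ρ₀ : ℝ} (hρ0 : 0 ≤ ρ₀)
    (hG : PNum S (capS 1 (qRot i0 Q w)) ρ₀) {x₀ δ h h₂ : ℝ} (hx₀ : 0 < x₀) (hδ : 0 < δ)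
    (hh : 4 * h ≤ x₀ * δ) (hh₂ : 0 < h₂) (hx1 : ρ₀ + x₀ * δ / 2 ≤ 1)
    {C D Bs : ℝ} (hC : 0 < C) (hD : 0 < D) (hBs : 0 ≤ Bs) :
    ∃ c > 0, ∃ J₁ : ℕ, ∀ J ≥ J₁, ∀ (F : Fam 3 J) (A : F.Ω → Prop), S.St c J F A →
      ∀ B : F.Ω → Prop, Sub B A → Real.exp (-(c * J)) * Pe F.p A ≤ Pe F.p B →
      IsLaw (Pool.Agent.H49.Ent.cond F.p B True) → ∀ σ : Fin 3 → Fin 3, Function.Injective σ →
      σ 0 = i0 → ∀ (q V H X n : ℕ) (a s t a' s' t' nu b : F.Ω → ℝ),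
      Frg F B ⌊(w : ℝ) * J⌋₊ V H D a s t a' s' t' →
      (∃ φ : (Fin 3 → ℤ) × (ℕ × F.ζ) → ℝ × ℝ × ℝ × ℝ × ℝ,
        ∀ ω, B ω → (a' ω, s' ω, t' ω, nu ω, b ω) = φ (ptq F ⌊Q * J⌋₊ ω)) →
      (∀ ω, B ω → |F.d ω (σ 1) - a' ω * F.d ω (σ 0) - nu ω| ≤ C / 2 ^ n) →
      (∀ ω, B ω → |F.d ω (σ 2) - s' ω * F.d ω (σ 1) - t' ω * F.d ω (σ 0) - b ω| ≤ C / 2 ^ n) →
      (∀ ω, B ω → |s' ω| ≤ Bs) → (∀ ω, B ω → |s ω| ≤ Bs) →
      δ * J - 1 ≤ X → (ρ₀ - h) * J ≤ V → x₀ * X + h₂ * J ≤ H →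
      (ρ₀ + x₀ * δ / 2 + h₂) * J ≤ n →
      Pool.KAF.Pr (dbl (Pool.Agent.H49.Ent.cond F.p B True)
          (fun ω => (blk F σ ⌊(w : ℝ) * J⌋₊ q V H X a s t ω,
            ctx F σ ⌊(w : ℝ) * J⌋₊ q V H a s t ω)))
        {x | |EE V a a' x.1 - EE V a a' x.2| < (2 : ℝ) ^ (-(x₀ * X))} ≤ Real.exp (-(c * J)) := by
  obtain ⟨c, hc, J₁, hn⟩ := h7_labc hρ0 hG hx₀ hδ hh hh₂ hx1 (C := (1 + Bs) * C + D + D * D)
    (by positivity) hBs
  refine ⟨c, hc, J₁, ?_⟩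
  intro J hJ F A hS B hBA hPB hl σ hσ hσ0 q V H X n a s t a' s' t' nu b hF hfp hu hN hs' hs hX hV
    hH hnn
  obtain ⟨φ, hφ⟩ := hfp
  have hBC : 0 ≤ Bs * C := by positivity
  have hDD : 0 ≤ D * D := by positivity
  have pn : (0 : ℝ) < 2 ^ n := by positivity
  have hC1 : C / 2 ^ n ≤ ((1 + Bs) * C + D + D * D) / 2 ^ n :=
    div_le_div_of_nonneg_right (by linarith only [hD, hBC, hDD]) pn.le
  refine hn J hJ F A hS B hBA hPB hl (σ 1) (σ 2) (by rw [← hσ0]; exact sig_all hσ) V X n (V + H)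
    a' (fun ω => t' ω + s' ω * a' ω) nu (fun ω => b ω + s' ω * nu ω) a s t _ _
    ⟨fun u => ((φ u).1, (φ u).2.2.1 + (φ u).2.1 * (φ u).1, (φ u).2.2.2.1,
      (φ u).2.2.2.2 + (φ u).2.1 * (φ u).2.2.2.1), fun ω hω => ?_⟩ ?_ ?_
    (lab_slam (σ := σ) (q := q) (X := X) hF) ?_ hs ?_ hX hV ?_ hnn
  · beta_reduce
    rw [← hφ ω hω]
  · intro ω hω
    rw [← hσ0]
    exact (hu ω hω).trans hC1
  · intro ω hω
    rw [← hσ0]
    have e1 : F.d ω (σ 2) - (t' ω + s' ω * a' ω) * F.d ω (σ 0) - (b ω + s' ω * nu ω) =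
        (F.d ω (σ 2) - s' ω * F.d ω (σ 1) - t' ω * F.d ω (σ 0) - b ω) +
          s' ω * (F.d ω (σ 1) - a' ω * F.d ω (σ 0) - nu ω) := by ring
    rw [e1]
    refine (abs_add_le _ _).trans ?_
    rw [abs_mul]
    have h7 : |s' ω| * |F.d ω (σ 1) - a' ω * F.d ω (σ 0) - nu ω| ≤ Bs * (C / 2 ^ n) :=
      mul_le_mul (hs' ω hω) (hu ω hω) (abs_nonneg _) hBs
    have h8 := hN ω hω
    have e2 : C / 2 ^ n + Bs * (C / 2 ^ n) = (1 + Bs) * C / 2 ^ n := by ring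
    have e3 : (1 + Bs) * C / 2 ^ n ≤ ((1 + Bs) * C + D + D * D) / 2 ^ n :=
      div_le_div_of_nonneg_right (by linarith only [hD, hDD]) pn.le
    linarith only [h7, h8, e2, e3]
  · intro ω ω' h
    have hb : ctx F σ _ q V H a s t ω = ctx F σ _ q V H a s t ω' := (Prod.ext_iff.mp h).2
    exact ctx_frm hσ hb
  · intro ω hω
    have e1 : t' ω + s' ω * a' ω - (t ω + s ω * a' ω) =
        ((t' ω - t ω) + (s' ω - s ω) * a ω) + (s' ω - s ω) * (a' ω - a ω) := by ring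
    rw [e1]
    refine (abs_add_le _ _).trans ?_
    rw [abs_mul]
    have h7 : |s' ω - s ω| * |a' ω - a ω| ≤ D / 2 ^ H * (D / 2 ^ V) :=
      mul_le_mul (hF.cs ω hω) (hF.ca ω hω) (abs_nonneg _) (by positivity)
    have e2 : D / 2 ^ H * (D / 2 ^ V) = D * D / 2 ^ (V + H) := by
      rw [pow_add]
      field_simp
    rw [e2] at h7
    have h8 := hF.ct ω hω
    have pm : (0 : ℝ) < 2 ^ (V + H) := by positivity
    have e3 : D / 2 ^ (V + H) + D * D / 2 ^ (V + H) = (D + D * D) / 2 ^ (V + H) := by ring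
    have e4 : (D + D * D) / 2 ^ (V + H) ≤ ((1 + Bs) * C + D + D * D) / 2 ^ (V + H) :=
      div_le_div_of_nonneg_right (by nlinarith only [hC, hBC]) pm.le
    linarith only [h7, h8, e3, e4]
  · push_cast
    linarith only [hH]

end Pool.S6N
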